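import Pool.Agent.Helper71.JN.SheetC

/-!
Project JN, fourth sheet: the uniform theorem. `x` is close to the square of a QUOTIENT `p / q` of
two sums of S-units (no dominating term), i.e. in the abstract part the approximations `R i`,
`R' i` are only supposed to lie in the field `D.K` (not in the ring `D.R`). The rows `...K` are the
rows of SheetB with this weaker hypothesis; their proofs are the same except in IZK and N2AK, where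
the bound for the conjugates is applied to elements `z` such that `q * z ∈ D.O` for some nonzero
`q ∈ D.R` (SPNK).
-/

set_option autoImplicit false

namespace Pool.Agent.Helper71.JN

open Polynomial Filter Finset Pool.Agent.Helper70.SUB Pool.Agent.Helper77.SUBK
  Pool.Agent.Helper70.SUBL Pool.Agent.Helper70.SUBW

/-! ## D1. Abstract part -/

/-- `HH` with `R i, R' i ∈ D.K` -/
structure HK {F Ω : Type} [Field F] [Field Ω] [Algebra F Ω] {I : Type} [Fintype I] {r : ℕ}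
    (D : SSF F Ω I r) (J : Finset I) (α β : ℝ) (x y : Ω) (R R' : I → Ω) : Prop where
  hα0 : 0 ≤ α
  hα : α < 1
  hβ0 : 0 ≤ β
  hβ : β < 1 / 2
  hJ : J.Nonempty
  xO : x ∈ D.O
  yO : y ∈ D.O
  d0 : y ^ 2 - x ^ 3 ≠ 0
  fx : ∀ i, i ∉ J → D.nu i x ≤ 1
  fy : ∀ i, i ∉ J → D.nu i y ≤ 1
  sx : ∀ i ∈ J, D.nu i x = Real.exp 2
  sy : ∀ i ∈ J, D.nu i y = Real.exp 3
  sd : ∀ i ∈ J, D.nu i (y ^ 2 - x ^ 3) ≤ Real.exp α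
  RR : ∀ i ∈ J, R i ∈ D.K
  RR' : ∀ i ∈ J, R' i ∈ D.K
  s1 : ∀ i ∈ J, D.nu i (R i) = Real.exp 1
  s2 : ∀ i ∈ J, D.nu i (x - R i ^ 2) ≤ Real.exp β
  s3 : ∀ i ∈ J, D.nu i (R i * R' i - 1) ≤ Real.exp (-4)
  s4 : ∀ i ∈ J, D.nu i (y - R i ^ 3) < Real.exp 3
  gal : ∀ i ∈ J, ∀ j ∈ J, ∃ γ : Ω ≃+* Ω, γ x = x ∧ γ y = y ∧ (∀ z ∈ D.K, γ z ∈ D.K) ∧
    ∀ z, D.nu j z = D.nu i (γ z)

/-- (SPNK) the spectral norm; the bound for conjugates of elements with a denominator in `R`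
(PRIM: the minimal polynomial of `q * z` is the scaled one; RK) -/
def ST_SPNK : Prop := ∀ (F Ω : Type) [Field F] [Field Ω] [Algebra F Ω] (I : Type) [Fintype I]
  (r : ℕ) (D : SSF F Ω I r) (i : I), ∃ N : AlgebraicClosure D.K → ℝ, (∀ a, 0 ≤ N a) ∧
  (∀ a b, N (a + b) ≤ max (N a) (N b)) ∧ (∀ a b, N (a * b) ≤ N a * N b) ∧
  (∀ a, N (-a) = N a) ∧ (∀ k : D.K, N (algebraMap D.K (AlgebraicClosure D.K) k) = D.nu i (k : Ω)) ∧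
  (∀ z : Ω, (∃ q ∈ D.R, q ≠ 0 ∧ q * z ∈ D.O) → IsIntegral D.K z →
    ∀ a, aeval a (minpoly D.K z) = 0 → N a ≤ D.nu i z) ∧
  (∀ a, D.nu i (((minpoly D.K a).coeff 0 : D.K) : Ω) ≤ N a ^ (minpoly D.K a).natDegree)

def ST_APXK : Prop := ∀ (F Ω : Type) [Field F] [Field Ω] [CharZero Ω] [Algebra F Ω] (I : Type)
  [Fintype I] (r : ℕ) (D : SSF F Ω I r) (J : Finset I) (α β : ℝ) (x y : Ω) (R R' : I → Ω),
  HK D J α β x y R R' →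
  (∀ (i : I) (q : ℚ), q ≠ 0 → D.nu i (q : Ω) = 1) ∧
  (∀ i ∈ J, D.nu i (R' i) = Real.exp (-1)) ∧
  (∀ i ∈ J, D.nu i (y - Y2 x (R i) (R' i)) ≤ Real.exp (max α (3 * β) - 3))

def ST_REL4K : Prop := ∀ (F Ω : Type) [Field F] [Field Ω] [CharZero Ω] [Algebra F Ω] (I : Type)
  [Fintype I] (r : ℕ) (D : SSF F Ω I r) (J : Finset I) (α β : ℝ) (x y : Ω) (R R' : I → Ω),
  HK D J α β x y R R' →
  ∃ a b c d : D.K, ¬ (a = 0 ∧ b = 0 ∧ c = 0 ∧ d = 0) ∧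
    (a : Ω) + (b : Ω) * x + (c : Ω) * x ^ 2 + (d : Ω) * y = 0

def ST_TRSK : Prop := ∀ (F Ω : Type) [Field F] [Field Ω] [CharZero Ω] [Algebra F Ω] (I : Type)
  [Fintype I] (r : ℕ) (D : SSF F Ω I r) (J : Finset I) (α β : ℝ) (x y : Ω) (R R' : I → Ω),
  HK D J α β x y R R' → IsIntegral D.K x

def ST_YKXK : Prop := ∀ (F Ω : Type) [Field F] [Field Ω] [CharZero Ω] [Algebra F Ω] (I : Type)
  [Fintype I] (r : ℕ) (D : SSF F Ω I r) (J : Finset I) (α β : ℝ) (x y : Ω) (R R' : I → Ω),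
  HK D J α β x y R R' → ∃ q : Polynomial D.K, aeval x q = y

/-- (IZK) as IZ with SPNK: `x - R ^ 2` and `y - Y2` have denominators in `R` -/
def ST_IZK : Prop := ∀ (F Ω : Type) [Field F] [Field Ω] [CharZero Ω] [Algebra F Ω] (I : Type)
  [Fintype I] (r : ℕ) (D : SSF F Ω I r) (J : Finset I) (α β : ℝ) (x y : Ω) (R R' : I → Ω),
  HK D J α β x y R R' → IsIntegral D.K x → ∀ q : Polynomial D.K, aeval x q = y →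
  ∀ a₁ a₂ : AlgebraicClosure D.K, aeval a₁ (minpoly D.K x) = 0 → aeval a₂ (minpoly D.K x) = 0 →
  8 * (aeval a₁ q - aeval a₂ q) ^ 2 = 9 * (a₁ + a₂) * (a₁ - a₂) ^ 2

/-- (N2AK) as N2A; for `x - R ^ 2` multiply by the square of the denominator of `R` -/
def ST_N2AK : Prop := ∀ (F Ω : Type) [Field F] [Field Ω] [CharZero Ω] [Algebra F Ω] (I : Type)
  [Fintype I] (r : ℕ) (D : SSF F Ω I r) (J : Finset I) (α β : ℝ) (x y : Ω) (R R' : I → Ω),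
  HK D J α β x y R R' → IsIntegral D.K x → (∃ q : Polynomial D.K, aeval x q = y) →
  (minpoly D.K x).natDegree = 2 →
  ∃ Q s : Ω, Q ∈ D.R ∧ s ∈ D.R ∧ (x - Q ^ 2) ^ 2 ∈ D.R ∧ x - Q ^ 2 ≠ 0 ∧
    y = s + 3 / 2 * Q * (x - Q ^ 2) ∧
    (∀ i ∈ J, 1 ≤ D.nu i (x - Q ^ 2) ∧ D.nu i (x - Q ^ 2) ≤ Real.exp β) ∧
    (∀ i, i ∉ J → D.nu i (x - Q ^ 2) ≤ 1 ∧ D.nu i Q ≤ 1 ∧ D.nu i s ≤ 1) ∧
    (∀ i ∈ J, D.nu i ((s - 3 / 2 * Q * (x - Q ^ 2)) ^ 2 - (Q ^ 2 - (x - Q ^ 2)) ^ 3)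
      ≤ Real.exp α)

def ST_N2BK : Prop := ∀ (F Ω : Type) [Field F] [Field Ω] [CharZero Ω] [Algebra F Ω] (I : Type)
  [Fintype I] (r : ℕ) (D : SSF F Ω I r) (J : Finset I) (α β : ℝ) (x y : Ω) (R R' : I → Ω),
  HK D J α β x y R R' → ∀ Q s : Ω, Q ∈ D.R → s ∈ D.R → (x - Q ^ 2) ^ 2 ∈ D.R → x - Q ^ 2 ≠ 0 →
  y = s + 3 / 2 * Q * (x - Q ^ 2) →
  (∀ i ∈ J, 1 ≤ D.nu i (x - Q ^ 2) ∧ D.nu i (x - Q ^ 2) ≤ Real.exp β) →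
  (∀ i, i ∉ J → D.nu i (x - Q ^ 2) ≤ 1 ∧ D.nu i Q ≤ 1 ∧ D.nu i s ≤ 1) →
  (∀ i ∈ J, D.nu i ((s - 3 / 2 * Q * (x - Q ^ 2)) ^ 2 - (Q ^ 2 - (x - Q ^ 2)) ^ 3)
    ≤ Real.exp α) → False

/-- (HEARTK) -/
def ST_HEARTK : Prop := ∀ (F Ω : Type) [Field F] [Field Ω] [CharZero Ω] [Algebra F Ω] (I : Type)
  [Fintype I] (r : ℕ) (D : SSF F Ω I r) (J : Finset I) (α β : ℝ) (x y : Ω) (R R' : I → Ω),
  HK D J α β x y R R' → x ∈ D.R ∧ y ∈ D.R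

/-! ## D2. Application -/

/-- (SPH) a sum of S-units with slow coefficients which is of polynomial size at all places is a
sum of moderate S-units with slow coefficients (as MODW and HBW, with a sequence in `M` instead of
a sequence of integers) -/
def ST_SPH : Prop := ∀ (M : Type) [Field M] [NumberField M] [IsGalois ℚ M] (S : Finset ℕ)
  (P : PF S M) (φ : Ultrafilter ℕ) (X : ℕ → ℝ) (z : ℕ → M) (B : ℝ), (∀ p ∈ S, p.Prime) →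
  Tendsto X (φ : Filter ℕ) atTop → Spa P φ X z →
  (∀ᶠ j in (φ : Filter ℕ), HB P (X j ^ B) (z j)) → SpM P φ X z

/-- (BRGK) from the sequences to the abstract part (as BRG with HEARTK): `R = p / q`,
`R (none, σ) = σ⁻¹ (p / q) ∈ D.K`, `R' = R⁻¹` -/
def ST_BRGK : Prop := ∀ (M : Type) [Field M] [NumberField M] [IsGalois ℚ M] (S : Finset ℕ)
  (P : PF S M) (φ : Ultrafilter ℕ) (x y : ℕ → ℤ) (X : ℕ → ℝ) (p q : ℕ → M) (β ε ρ : ℝ),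
  (∀ p ∈ S, p.Prime) → 0 < ε → 0 ≤ β → β < 1 / 2 → 0 < ρ → Tendsto X (φ : Filter ℕ) atTop →
  (∀ᶠ j in (φ : Filter ℕ), X j ^ 2 = |(x j : ℝ)|) → SpM P φ X p → SpM P φ X q →
  (∀ᶠ j in (φ : Filter ℕ), q j ≠ 0 ∧ y j ^ 2 ≠ x j ^ 3 ∧
    |((y j ^ 2 - x j ^ 3 : ℤ) : ℝ)| ≤ |(x j : ℝ)| ^ (1 / (2 + ε)) ∧
    P.nv none ((x j : M) - (p j / q j) ^ 2) ≤ X j ^ β ∧
    P.nv none ((y j : M) - (p j / q j) ^ 3) ≤ X j ^ (3 - ρ)) → False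

/-- `z` has size at most `H`: a denominator and all conjugates are at most `H` -/
def HBZ {M : Type} [Field M] [NumberField M] (ψ : M →+* ℂ) (H : ℝ) (z : M) : Prop :=
  (∃ D : ℕ, D ≠ 0 ∧ (D : ℝ) ≤ H ∧ IsIntegral ℤ ((D : M) * z)) ∧
    ∀ σ : M ≃ₐ[ℚ] M, ‖ψ (σ z)‖ ≤ H

/-- (T1U) the uniform theorem over `M` (EXTW, PFE, SLW, SPW, SPH, BRGK). Scale `X = |x| ^ (1/2)`;
first alternative: the sign of `p` is the one with `|y - R ^ 3| ≤ |y + R ^ 3|`; second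
alternative: `x ^ 3 - R ^ 6 = (x - R ^ 2) (x - ζ R ^ 2) (x - ζ ^ 2 R ^ 2)` has size
`≤ 4 X ^ (9/2 - 2 η)`, so one factor is at most `X ^ β`, `β = max 0 (1/2 - η)`; replace `p` by
`ζ ^ i p` -/
def ST_T1U : Prop := ∀ (M : Type) [Field M] [NumberField M] [IsGalois ℚ M] (S : Finset ℕ)
  (ψ : M →+* ℂ) (ζ : M) (t : ℕ) (ε η B : ℝ), (∀ p ∈ S, p.Prime) → ζ ^ 2 + ζ + 1 = 0 → 0 < ε →
  0 < η →
  ∃ κ : ℝ, 0 < κ ∧ ∃ C : ℝ, ∀ (c d : Fin t → ℤ) (a b : Fin t → M) (x y : ℤ),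
    (∀ i, SV S (a i)) → (∀ i, SV S (b i)) → (∀ i, |(c i : ℝ)| ≤ |(x : ℝ)| ^ κ) →
    (∀ i, |(d i : ℝ)| ≤ |(x : ℝ)| ^ κ) →
    HBZ ψ (|(x : ℝ)| ^ B) (∑ i, (c i : M) * a i) → HBZ ψ (|(x : ℝ)| ^ B) (∑ i, (d i : M) * b i) →
    ∑ i, (d i : M) * b i ≠ 0 →
    (‖(x : ℂ) - ψ ((∑ i, (c i : M) * a i) / ∑ i, (d i : M) * b i) ^ 2‖
        ≤ |(x : ℝ)| ^ (1 / 4 - η) ∨
      ‖(y : ℂ) - ψ ((∑ i, (c i : M) * a i) / ∑ i, (d i : M) * b i) ^ 3‖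
        ≤ |(x : ℝ)| ^ (3 / 4 - η)) →
    y ^ 2 ≠ x ^ 3 →
    Real.log |(x : ℝ)| ≤ (2 + ε) * Real.log |((y ^ 2 - x ^ 3 : ℤ) : ℝ)| + C

/-- `z` is a sum of `t` elements of `Γ` with integral coefficients of absolute value at most `H`,
and a denominator and all the conjugates of `z` are at most `H'` -/
def Sparse (Γ : Subgroup ℂˣ) (t : ℕ) (H H' : ℝ) (z : ℂ) : Prop :=
  (∃ (c : Fin t → ℤ) (γ : Fin t → ℂˣ), (∀ i, γ i ∈ Γ) ∧ (∀ i, |(c i : ℝ)| ≤ H) ∧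
    z = ∑ i, (c i : ℂ) * (γ i : ℂ)) ∧
  (∃ D : ℕ, D ≠ 0 ∧ (D : ℝ) ≤ H' ∧ IsIntegral ℤ ((D : ℂ) * z)) ∧
  ∀ z' : ℂ, aeval z' (minpoly ℚ z) = 0 → ‖z'‖ ≤ H'

/-- (FINU) the uniform theorem (T1U, SVB, GALA, `Helper45.SUBK.field_exists`) -/
def ST_FINU : Prop := ∀ (Γ : Subgroup ℂˣ) (t : ℕ) (ε η B : ℝ), Γ.FG →
  (∀ γ ∈ Γ, IsAlgebraic ℚ ((γ : ℂˣ) : ℂ)) → 0 < ε → 0 < η →
  ∃ κ : ℝ, 0 < κ ∧ ∃ C : ℝ, ∀ (x y : ℤ) (p q : ℂ),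
    Sparse Γ t (|(x : ℝ)| ^ κ) (|(x : ℝ)| ^ B) p → Sparse Γ t (|(x : ℝ)| ^ κ) (|(x : ℝ)| ^ B) q →
    q ≠ 0 →
    (‖(x : ℂ) - (p / q) ^ 2‖ ≤ |(x : ℝ)| ^ (1 / 4 - η) ∨
      ‖(y : ℂ) - (p / q) ^ 3‖ ≤ |(x : ℝ)| ^ (3 / 4 - η)) →
    y ^ 2 ≠ x ^ 3 →
    Real.log |(x : ℝ)| ≤ (2 + ε) * Real.log |((y ^ 2 - x ^ 3 : ℤ) : ℝ)| + C

end Pool.Agent.Helper71.JN
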