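import Pool.Agent.Helper71.JN.Base

/-!
Project JN, first sheet: the abstract part. Every row is a statement `ST_...`; the rows which may
be used in the proof of a row are named in its doc-string.
-/

set_option autoImplicit false

namespace Pool.Agent.Helper71.JN

open Polynomial

/-! ## B1. Linear algebra, the ring `R` and the field `K` -/

/-- (LEAD) elimination of leading terms: if every `b a` lies in `W` or in `W` + the span of the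
`b c` with a smaller key, then every `b a` lies in `W` -/
def ST_LEAD : Prop := ∀ (F V : Type) [Field F] [AddCommGroup V] [Module F V] (κ Γ : Type)
  [LinearOrder Γ] (T : Finset κ) (key : κ → Γ) (b : κ → V) (W : Submodule F V),
  (∀ a ∈ T, b a ∈ W ⊔ Submodule.span F (b '' {c | c ∈ T ∧ key c < key a})) → ∀ a ∈ T, b a ∈ W

/-- (SSX) the Subspace theorem with arbitrary finite families (from `D.ss`) -/
def ST_SSX : Prop := ∀ (F Ω : Type) [Field F] [Field Ω] [Algebra F Ω] (I : Type) [Fintype I]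
  (r : ℕ) (D : SSF F Ω I r) (ι κ : Type) [Fintype ι] (e : ι → Ω) (T : I → Finset κ)
  (f : I → κ → Ω), (∀ a, e a ∈ D.O) → LinearIndependent F e →
  (∀ i, (T i).card = Fintype.card ι) →
  (∀ i, ∀ a ∈ T i, f i a ∈ Submodule.span F (Set.range e)) →
  (∀ i a, e a ∈ Submodule.span F (f i '' (T i : Set κ))) →
  1 ≤ ∏ i, ∏ k ∈ T i, D.nu i (f i k)

/-- (RK) basic facts on the ring `R` of Laurent polynomials and its field of fractions `K`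
(from the fields of `SSF`) -/
def ST_RK : Prop := ∀ (F Ω : Type) [Field F] [Field Ω] [Algebra F Ω] (I : Type) [Fintype I]
  (r : ℕ) (D : SSF F Ω I r),
  (∀ m m', mon D.w (m + m') = mon D.w m * mon D.w m') ∧ mon D.w 0 = 1 ∧
  (∀ m, mon D.w m ≠ 0) ∧ (∀ m, mon D.w (-m) = (mon D.w m)⁻¹) ∧ (∀ m, mon D.w m ∈ D.R) ∧
  (∀ z ∈ D.R, z ∈ D.O) ∧ (∀ z ∈ D.R, z ∈ D.K) ∧
  (∀ z ∈ D.R, ∃ (m : Fin r → ℤ) (p : MvPolynomial (Fin r) F), z = mon D.w m * D.ev p) ∧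
  (∀ p, D.ev p ∈ D.R) ∧
  (∀ z ∈ D.R, ∃ (s : Finset (Fin r → ℤ)) (c : (Fin r → ℤ) → F), (∀ m ∈ s, c m ≠ 0) ∧
    z = ∑ m ∈ s, algebraMap F Ω (c m) * mon D.w m) ∧
  (∀ (s : Finset (Fin r → ℤ)) (c : (Fin r → ℤ) → F),
    ∑ m ∈ s, algebraMap F Ω (c m) * mon D.w m ∈ D.R) ∧
  Function.Injective D.ev ∧
  (∀ z ∈ D.K, ∃ p q : MvPolynomial (Fin r) F, q ≠ 0 ∧ z = D.ev p / D.ev q) ∧
  (∀ z ∈ D.O, z ≠ 0 → 1 ≤ ∏ i, D.nu i z) ∧ (∀ m, ∏ i, D.nu i (mon D.w m) = 1) ∧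
  (∀ z ∈ D.R, z ≠ 0 → ∏ i, D.nu i z ≤ 1 →
    ∃ (c : F) (m : Fin r → ℤ), c ≠ 0 ∧ z = algebraMap F Ω c * mon D.w m) ∧
  (∀ (s : Finset (Fin r → ℤ)) (c : (Fin r → ℤ) → F) (i : I) (a : ℝ), 0 ≤ a →
    (∀ m ∈ s, c m ≠ 0 → D.nu i (mon D.w m) ≤ a) →
      D.nu i (∑ m ∈ s, algebraMap F Ω (c m) * mon D.w m) ≤ a)

/-- (RIC) `R` is integrally closed (RK, `MvPolynomial` over a field is integrally closed) -/
def ST_RIC : Prop := ∀ (F Ω : Type) [Field F] [Field Ω] [Algebra F Ω] (I : Type) [Fintype I]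
  (r : ℕ) (D : SSF F Ω I r) (z : Ω), z ∈ D.K → IsIntegral D.R z → z ∈ D.R

/-! ## B2. The two counting theorems -/

/-- (GSK) the generic Subspace theorem over `K` (SSX, RK, LEAD). Proof: multiply `f i k` and
`g i k` by a common denominator (in `K`), write everything with polynomials of degree `< c` in the
`w k`; in the box `[0, T) ^ r` take, at the place `i`, the family `w ^ m' * f i k`
(`m' ∈ [0, T - c) ^ r`) and `w ^ m * e k` (`m` not in `μ i k + [0, T - c) ^ r`, `μ i k` the leading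
exponent of `g i k` for the order `(nu i (mon w m), lex)`); compare with the basis `w ^ m * e k`
and let `T → ∞`. -/
def ST_GSK : Prop := ∀ (F Ω : Type) [Field F] [Field Ω] [Algebra F Ω] (I : Type) [Fintype I]
  (r : ℕ) (D : SSF F Ω I r) (n : ℕ) (e : Fin n → Ω) (f g : I → Fin n → Ω),
  (∀ k, e k ∈ D.O) → LinearIndependent D.K e → (∀ i k, g i k ∈ D.K ∧ g i k ≠ 0) →
  (∀ i k, f i k - g i k * e k ∈ Submodule.span D.K (e '' {l | l < k})) →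
  1 ≤ ∏ i, ∏ k, D.nu i (f i k) / D.nu i (g i k)

/-- (PRIM) the minimal polynomial over `K` of an element of `O` has coefficients in `R` which are
small at every place (SSX, RK, LEAD, Gauss' lemma). Proof: the primitive multiple `a(Z)` of the
minimal polynomial in `MvPolynomial (Fin r) F [Z]`; families `w ^ m * z ^ k`, `m ∈ [0, T) ^ r`,
`k < N`, at the place `i` without the shifts of the leading monomial of `a`; `T → ∞`, then
`N → ∞`: the product over `i` of `max_k nu i (a_k) * nu i z ^ k` is at most the product of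
`nu i z ^ n`; with the product formula the leading coefficient of `a` is a monomial. -/
def ST_PRIM : Prop := ∀ (F Ω : Type) [Field F] [Field Ω] [Algebra F Ω] (I : Type) [Fintype I]
  (r : ℕ) (D : SSF F Ω I r) (z : Ω), z ∈ D.O → IsIntegral D.K z → ∀ k : ℕ,
  (((minpoly D.K z).coeff k : D.K) : Ω) ∈ D.R ∧
  ∀ i, D.nu i (((minpoly D.K z).coeff k : D.K) : Ω)
    ≤ D.nu i z ^ ((minpoly D.K z).natDegree - k)

/-- (SPN) the spectral norm on the algebraic closure of `K` (PRIM; Mathlib: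
`Analysis/Normed/Unbundled/SpectralNorm`) -/
def ST_SPN : Prop := ∀ (F Ω : Type) [Field F] [Field Ω] [Algebra F Ω] (I : Type) [Fintype I]
  (r : ℕ) (D : SSF F Ω I r) (i : I), ∃ N : AlgebraicClosure D.K → ℝ, (∀ a, 0 ≤ N a) ∧
  (∀ a b, N (a + b) ≤ max (N a) (N b)) ∧ (∀ a b, N (a * b) ≤ N a * N b) ∧
  (∀ a, N (-a) = N a) ∧ (∀ k : D.K, N (algebraMap D.K (AlgebraicClosure D.K) k) = D.nu i (k : Ω)) ∧
  (∀ z ∈ D.O, IsIntegral D.K z → ∀ a, aeval a (minpoly D.K z) = 0 → N a ≤ D.nu i z) ∧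
  (∀ a, D.nu i (((minpoly D.K a).coeff 0 : D.K) : Ω) ≤ N a ^ (minpoly D.K a).natDegree)

/-! ## B3. The heart of the application -/

/-- the approximation of `y` -/
noncomputable def Y2 {Ω : Type} [Field Ω] (x a a' : Ω) : Ω :=
  a ^ 3 + 3 / 2 * a * (x - a ^ 2) + 3 / 8 * a' * (x - a ^ 2) ^ 2

/-- the hypotheses: `J` is the set of archimedean places, `x` is close to the square of
`R i ∈ D.R` for `i ∈ J`, `R' i` is nearly the inverse of `R i`, `y ^ 2 - x ^ 3` is small -/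
structure HH {F Ω : Type} [Field F] [Field Ω] [Algebra F Ω] {I : Type} [Fintype I] {r : ℕ}
    (D : SSF F Ω I r) (J : Finset I) (α β : ℝ) (x y : Ω) (R R' : I → Ω) : Prop where
  hα0 : 0 ≤ α
  hα : α < 1
  hβ0 : 0 ≤ β
  hβ : β < 1 / 2
  hJ : J.Nonempty
  xO : x ∈ D.O
  yO : y ∈ D.O
  d0 : y ^ 2 - x ^ 3 ≠ 0
  fx : ∀ i, i ∉ J → D.nu i x ≤ 1
  fy : ∀ i, i ∉ J → D.nu i y ≤ 1
  sx : ∀ i ∈ J, D.nu i x = Real.exp 2
  sy : ∀ i ∈ J, D.nu i y = Real.exp 3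
  sd : ∀ i ∈ J, D.nu i (y ^ 2 - x ^ 3) ≤ Real.exp α
  RR : ∀ i ∈ J, R i ∈ D.R
  RR' : ∀ i ∈ J, R' i ∈ D.R
  s1 : ∀ i ∈ J, D.nu i (R i) = Real.exp 1
  s2 : ∀ i ∈ J, D.nu i (x - R i ^ 2) ≤ Real.exp β
  s3 : ∀ i ∈ J, D.nu i (R i * R' i - 1) ≤ Real.exp (-4)
  s4 : ∀ i ∈ J, D.nu i (y - R i ^ 3) < Real.exp 3
  gal : ∀ i ∈ J, ∀ j ∈ J, ∃ γ : Ω ≃+* Ω, γ x = x ∧ γ y = y ∧ (∀ z ∈ D.K, γ z ∈ D.K) ∧
    ∀ z, D.nu j z = D.nu i (γ z)

/-- (APX) sizes (pure valuation theory): with `b = x - R ^ 2` one has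
`y ^ 2 - Y2 ^ 2 = (y ^ 2 - x ^ 3) - b ^ 3 / 8 - ..`, and `y + Y2` has the size of `2 R ^ 3` -/
def ST_APX : Prop := ∀ (F Ω : Type) [Field F] [Field Ω] [CharZero Ω] [Algebra F Ω] (I : Type)
  [Fintype I] (r : ℕ) (D : SSF F Ω I r) (J : Finset I) (α β : ℝ) (x y : Ω) (R R' : I → Ω),
  HH D J α β x y R R' →
  (∀ (i : I) (q : ℚ), q ≠ 0 → D.nu i (q : Ω) = 1) ∧
  (∀ i ∈ J, D.nu i (R' i) = Real.exp (-1)) ∧
  (∀ i ∈ J, D.nu i (y - Y2 x (R i) (R' i)) ≤ Real.exp (max α (3 * β) - 3))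

/-- (REL4) `1, x, x ^ 2, y` are linearly dependent over `K` (APX, GSK with
`f = 1, b, b ^ 2, y - Y2` for `i ∈ J`, exponent `3 β + max α (3 β) - 3 < 0`) -/
def ST_REL4 : Prop := ∀ (F Ω : Type) [Field F] [Field Ω] [CharZero Ω] [Algebra F Ω] (I : Type)
  [Fintype I] (r : ℕ) (D : SSF F Ω I r) (J : Finset I) (α β : ℝ) (x y : Ω) (R R' : I → Ω),
  HH D J α β x y R R' →
  ∃ a b c d : D.K, ¬ (a = 0 ∧ b = 0 ∧ c = 0 ∧ d = 0) ∧
    (a : Ω) + (b : Ω) * x + (c : Ω) * x ^ 2 + (d : Ω) * y = 0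

/-- (TRS) `x` is algebraic over `K` (REL4, APX, GSK). Otherwise `y = q0 + q1 x + q2 x ^ 2` with
unique `q0, q1, q2 ∈ K`, so `nu i q2` is the same for all `i ∈ J` by `gal`; GSK with
`e = 1, x, x ^ 2`, `f = 1, b, y - Y2`, `g = 1, 1, q2 - 3 / 8 * R' i` gives `nu i q2 = exp (-1)`;
GSK with `e = x ^ ε * y ^ j` (`ε ∈ {0, 1}`, `j ≤ m`, index `k = 2 j + ε`), `f = b ^ k`,
`g = q2 ^ (-j)` has exponent `(m + 1) * ((2 m + 1) β - m) < 0` for large `m` -/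
def ST_TRS : Prop := ∀ (F Ω : Type) [Field F] [Field Ω] [CharZero Ω] [Algebra F Ω] (I : Type)
  [Fintype I] (r : ℕ) (D : SSF F Ω I r) (J : Finset I) (α β : ℝ) (x y : Ω) (R R' : I → Ω),
  HH D J α β x y R R' → IsIntegral D.K x

/-- (YKX) `y` is a polynomial in `x` over `K` (REL4, APX, GSK). If `d = 0` in REL4 then `x` has
degree 1 or 2 over `K`; if `y` is not in `K(x)` use GSK with `e = 1, y`, `f = 1, y - Y2`
respectively `e = 1, x, y, x y`, `f = 1, b, y - Y2, b (y - Y2)` -/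
def ST_YKX : Prop := ∀ (F Ω : Type) [Field F] [Field Ω] [CharZero Ω] [Algebra F Ω] (I : Type)
  [Fintype I] (r : ℕ) (D : SSF F Ω I r) (J : Finset I) (α β : ℝ) (x y : Ω) (R R' : I → Ω),
  HH D J α β x y R R' → ∃ q : Polynomial D.K, aeval x q = y

/-- (IZ) the key identity for two conjugates (SPN, PRIM, RIC, RK, APX). At `i ∈ J` put
`b_j = a_j - R ^ 2`, `y_j = q(a_j)`, `ρ_j = y_j - Y2(a_j)`: conjugates of `x - R ^ 2`, `y`,
`y - Y2` (a root of the minimal polynomial of `P(x)` is obtained as `P(a_j)`), so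
`N b_j ≤ exp β`, `N ρ_j ≤ exp (max α (3 β) - 3)`, and with `u = b_1 - b_2`, `s = b_1 + b_2`,
`ρ = ρ_1 - ρ_2`: left minus right side
`= u ^ 2 (9 (R R' - 1) s + 9/8 R' ^ 2 s ^ 2) + 16 u (3/2 R + 3/8 R' s) ρ + 8 ρ ^ 2`
has `N < 1`; at `i ∉ J` it has `N ≤ 1`; it is integral over `R` (PRIM: `a_j` and `y_j` are), so the
constant coefficient of its minimal polynomial over `K` lies in `R` (RIC) and the product formula
(RK) gives `0` -/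
def ST_IZ : Prop := ∀ (F Ω : Type) [Field F] [Field Ω] [CharZero Ω] [Algebra F Ω] (I : Type)
  [Fintype I] (r : ℕ) (D : SSF F Ω I r) (J : Finset I) (α β : ℝ) (x y : Ω) (R R' : I → Ω),
  HH D J α β x y R R' → IsIntegral D.K x → ∀ q : Polynomial D.K, aeval x q = y →
  ∀ a₁ a₂ : AlgebraicClosure D.K, aeval a₁ (minpoly D.K x) = 0 → aeval a₂ (minpoly D.K x) = 0 →
  8 * (aeval a₁ q - aeval a₂ q) ^ 2 = 9 * (a₁ + a₂) * (a₁ - a₂) ^ 2

/-- (N3) the degree of `x` over `K` is at most 2 (pure algebra). Three different roots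
`a_1, a_2, a_3` of the (separable) minimal polynomial, `λ_jk = (y_j - y_k) / (a_j - a_k)`,
`8 λ_jk ^ 2 = 9 (a_j + a_k)`; with `a = λ_23, b = λ_31, c = λ_12`:
`a_1 - a_2 = 8/9 (b ^ 2 - a ^ 2)` etc. and `(y_1 - y_2) + (y_2 - y_3) + (y_3 - y_1) = 0` give
`(a - b)(b - c)(c - a) = 0`, a contradiction -/
def ST_N3 : Prop := ∀ (K E Ω : Type) [Field K] [Field E] [Field Ω] [CharZero K] [Algebra K E]
  [Algebra K Ω] [IsAlgClosed E] (x : Ω) (q : Polynomial K), IsIntegral K x →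
  (∀ a₁ a₂ : E, aeval a₁ (minpoly K x) = 0 → aeval a₂ (minpoly K x) = 0 →
    8 * (aeval a₁ q - aeval a₂ q) ^ 2 = 9 * (a₁ + a₂) * (a₁ - a₂) ^ 2) →
  (minpoly K x).natDegree ≤ 2

/-- (N2A) degree 2 (IZ, PRIM, RIC, RK). Let `a_1 ≠ a_2` be the roots of the minimal polynomial
`Z ^ 2 - T Z + n`, `y = q0 + q1 x`: IZ gives `8 q1 ^ 2 = 9 T` in `K`; `Q = 2/3 q1`, `T = 2 Q ^ 2`,
`Q ∈ R` by RIC; `b = x - Q ^ 2`, `b ^ 2 = T ^ 2 / 4 - n ∈ R`; `s = q0 + q1 T / 2` is half the trace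
of `y` (PRIM for `y`; if `q1 = 0` then `y = s ∈ K`). Conjugates: if `p + q b ∈ O` (`p, q ∈ K`) then
`nu i (p - q b) ≤ nu i (p + q b)` by PRIM: this gives the last item (for `D = y ^ 2 - x ^ 3`) and
`nu i b ≤ exp β` (from `x - R ^ 2` and its conjugate). `1 ≤ nu i b` for `i ∈ J`: product formula
for `b ^ 2 ∈ R` (`nu i b ≤ 1` for `i ∉ J`) and `nu i (b ^ 2)` is the same for all `i ∈ J`:
`γ T = T`, `γ n = n` for the automorphisms of `gal` (uniqueness of the minimal polynomial) -/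
def ST_N2A : Prop := ∀ (F Ω : Type) [Field F] [Field Ω] [CharZero Ω] [Algebra F Ω] (I : Type)
  [Fintype I] (r : ℕ) (D : SSF F Ω I r) (J : Finset I) (α β : ℝ) (x y : Ω) (R R' : I → Ω),
  HH D J α β x y R R' → IsIntegral D.K x → (∃ q : Polynomial D.K, aeval x q = y) →
  (minpoly D.K x).natDegree = 2 →
  ∃ Q s : Ω, Q ∈ D.R ∧ s ∈ D.R ∧ (x - Q ^ 2) ^ 2 ∈ D.R ∧ x - Q ^ 2 ≠ 0 ∧
    y = s + 3 / 2 * Q * (x - Q ^ 2) ∧
    (∀ i ∈ J, 1 ≤ D.nu i (x - Q ^ 2) ∧ D.nu i (x - Q ^ 2) ≤ Real.exp β) ∧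
    (∀ i, i ∉ J → D.nu i (x - Q ^ 2) ≤ 1 ∧ D.nu i Q ≤ 1 ∧ D.nu i s ≤ 1) ∧
    (∀ i ∈ J, D.nu i ((s - 3 / 2 * Q * (x - Q ^ 2)) ^ 2 - (Q ^ 2 - (x - Q ^ 2)) ^ 3)
      ≤ Real.exp α)

/-- (N2B) the situation of (N2A) is impossible (RK). With `b = x - Q ^ 2`, `D1 = y ^ 2 - x ^ 3`,
`D2` its conjugate and `H = 8 Q s - 8 Q ^ 4 - 3 b ^ 2 ∈ R`: `H = - b ^ 2 / 3 + 4/3 (D1 - D2) / b`
has size `< exp 1`; `A = 8 Q ^ 4 + 12 Q ^ 2 b + 3 b ^ 2`, `H = 8 Q y - A`,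
`H (8 Q y + A) = 64 Q ^ 2 D1 - 8 Q ^ 2 b ^ 3 - 9 b ^ 4`, `nu i Q = exp 1`, so
`nu i H ≤ exp (max α (3 β) - 2) < 1` for `i ∈ J` and `≤ 1` for `i ∉ J`: `H = 0` by the product
formula; then `8 Q (s - Q ^ 3) = 3 b ^ 2` and `nu i (s - Q ^ 3) ≤ exp (2 β - 1) < 1`, so
`s = Q ^ 3` and `b = 0` -/
def ST_N2B : Prop := ∀ (F Ω : Type) [Field F] [Field Ω] [CharZero Ω] [Algebra F Ω] (I : Type)
  [Fintype I] (r : ℕ) (D : SSF F Ω I r) (J : Finset I) (α β : ℝ) (x y : Ω) (R R' : I → Ω),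
  HH D J α β x y R R' → ∀ Q s : Ω, Q ∈ D.R → s ∈ D.R → (x - Q ^ 2) ^ 2 ∈ D.R → x - Q ^ 2 ≠ 0 →
  y = s + 3 / 2 * Q * (x - Q ^ 2) →
  (∀ i ∈ J, 1 ≤ D.nu i (x - Q ^ 2) ∧ D.nu i (x - Q ^ 2) ≤ Real.exp β) →
  (∀ i, i ∉ J → D.nu i (x - Q ^ 2) ≤ 1 ∧ D.nu i Q ≤ 1 ∧ D.nu i s ≤ 1) →
  (∀ i ∈ J, D.nu i ((s - 3 / 2 * Q * (x - Q ^ 2)) ^ 2 - (Q ^ 2 - (x - Q ^ 2)) ^ 3)
    ≤ Real.exp α) → False

/-- (HEART) the main result of the abstract part (TRS, YKX, IZ, N3, N2A, N2B, PRIM) -/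
def ST_HEART : Prop := ∀ (F Ω : Type) [Field F] [Field Ω] [CharZero Ω] [Algebra F Ω] (I : Type)
  [Fintype I] (r : ℕ) (D : SSF F Ω I r) (J : Finset I) (α β : ℝ) (x y : Ω) (R R' : I → Ω),
  HH D J α β x y R R' → x ∈ D.R ∧ y ∈ D.R

end Pool.Agent.Helper71.JN
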