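import Pool.Agent.Helper70.SUB.SheetW
import Pool.Agent.Helper71.JN.SheetB

/-!
Project JN, second sheet: the concrete field with absolute values. `M` is a Galois number field,
`φ` an ultrafilter on `ℕ`, `X` a scale which tends to infinity along `φ`. `Om` is the field of
fractions of the ring `OO` of the classes of the sequences in `M` which are `S`-integral up to slow
denominators and of polynomial size at all places.
-/

set_option autoImplicit false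

namespace Pool.Agent.Helper71.JN

open Filter Finset Pool.Agent.Helper70.SUB Pool.Agent.Helper77.SUBK Pool.Agent.Helper70.SUBL
  Pool.Agent.Helper70.SUBW

/-! ## A0. Definitions -/

/-- the places above `plc S`, every place occurs several times -/
abbrev Pl (S : Finset ℕ) (M : Type) [Field M] [NumberField M] : Type :=
  {v : Option ℕ // v ∈ plc S} × (M ≃ₐ[ℚ] M)

section
variable {M : Type} [Field M] [NumberField M] {S : Finset ℕ}

/-- sequences which are `S`-integral up to slow denominators and of polynomial size -/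
def OS (P : PF S M) (φ : Ultrafilter ℕ) (X : ℕ → ℝ) (z : ℕ → M) : Prop :=
  (∀ ε : ℝ, 0 < ε → ∀ᶠ j in (φ : Filter ℕ), ∃ D : ℕ, D ≠ 0 ∧ (D : ℝ) ≤ X j ^ ε ∧
    SI S ((D : M) * z j)) ∧
  ∃ A : ℝ, 0 < A ∧ ∀ᶠ j in (φ : Filter ℕ), HB P (X j ^ A) (z j)

/-- the size at the place `i` is at most `a` -/
def LeA (P : PF S M) (φ : Ultrafilter ℕ) (X : ℕ → ℝ) (i : Pl S M) (z : ℕ → M) (a : ℝ) : Prop :=
  ∀ ε : ℝ, 0 < ε → ∀ᶠ j in (φ : Filter ℕ), P.nv i.1 (i.2 (z j)) ≤ X j ^ (a + ε)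

/-- the size at the place `i` is at least `a` -/
def GeA (P : PF S M) (φ : Ultrafilter ℕ) (X : ℕ → ℝ) (i : Pl S M) (z : ℕ → M) (a : ℝ) : Prop :=
  ∀ ε : ℝ, 0 < ε → ∀ᶠ j in (φ : Filter ℕ), X j ^ (a - ε) ≤ P.nv i.1 (i.2 (z j))

/-- the ring of the classes of the sequences `OS` -/
def OO (P : PF S M) (φ : Ultrafilter ℕ) (X : ℕ → ℝ) : Subring (UP M φ) :=
  Subring.closure {g | ∃ z : ℕ → M, OS P φ X z ∧ gm φ z = g}

/-- its field of fractions -/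
def Om (P : PF S M) (φ : Ultrafilter ℕ) (X : ℕ → ℝ) : Subfield (UP M φ) :=
  Subfield.closure {g | ∃ z : ℕ → M, OS P φ X z ∧ gm φ z = g}

/-- the field of slow elements, inside `Om` -/
def Sl (P : PF S M) (φ : Ultrafilter ℕ) (X : ℕ → ℝ) : Subfield (Om P φ X) :=
  Subfield.closure {g | SlG P φ X (g : UP M φ)}

/-- `nu` is the family of the absolute values `exp (lim log nv_v (σ z_j) / log X_j)` -/
def IsN (P : PF S M) (φ : Ultrafilter ℕ) (X : ℕ → ℝ)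
    (nu : Pl S M → AbsoluteValue (Om P φ X) ℝ) : Prop :=
  (∀ i g h, nu i (g + h) ≤ max (nu i g) (nu i h)) ∧
  ∀ (i : Pl S M) (g : Om P φ X) (z : ℕ → M), gm φ z = (g : UP M φ) → ∀ a : ℝ,
    (nu i g ≤ Real.exp a ↔ LeA P φ X i z a) ∧ (Real.exp a ≤ nu i g ↔ GeA P φ X i z a)

/-- `D` is the concrete structure attached to the sequences of units `w k` -/
structure IsD (P : PF S M) (φ : Ultrafilter ℕ) (X : ℕ → ℝ) {r : ℕ} (w : Fin r → ℕ → M)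
    (D : SSF (Sl P φ X) (Om P φ X) (Pl S M) r) : Prop where
  hw : ∀ k, ((D.w k : Om P φ X) : UP M φ) = gm φ (w k)
  hO : ∀ g : Om P φ X, g ∈ D.O ↔ (g : UP M φ) ∈ OO P φ X
  hN : IsN P φ X D.nu

end

/-! ## A1. Rows -/

/-- (OSR) closure properties of `OS` (SLW, SPW, SVB, PRK) -/
def ST_OSR : Prop := ∀ (M : Type) [Field M] [NumberField M] [IsGalois ℚ M] (S : Finset ℕ)
  (P : PF S M) (φ : Ultrafilter ℕ) (X : ℕ → ℝ), (∀ p ∈ S, p.Prime) →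
  Tendsto X (φ : Filter ℕ) atTop →
  (∀ z : ℕ → M, Slw P φ X z → OS P φ X z) ∧ (∀ u : ℕ → M, MU P φ X u → OS P φ X u) ∧
  (∀ z : ℕ → M, SpM P φ X z → OS P φ X z) ∧
  (∀ z z' : ℕ → M, OS P φ X z → OS P φ X z' →
    OS P φ X (fun j => z j + z' j) ∧ OS P φ X (fun j => z j * z' j)) ∧
  (∀ z : ℕ → M, OS P φ X z → OS P φ X (fun j => -z j)) ∧
  (∀ (z : ℕ → M) (σ : M ≃ₐ[ℚ] M), OS P φ X z → OS P φ X (fun j => σ (z j))) ∧
  (∀ z z' : ℕ → M, (∀ᶠ j in (φ : Filter ℕ), z j = z' j) → OS P φ X z → OS P φ X z') ∧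
  (∀ (c : ℕ → ℤ) (B : ℝ), (∀ᶠ j in (φ : Filter ℕ), |(c j : ℝ)| ≤ X j ^ B) →
    OS P φ X (fun j => (c j : M))) ∧
  (∀ z : ℕ → M, OS P φ X z → (∀ᶠ j in (φ : Filter ℕ), z j ≠ 0) → ∃ A : ℝ, 0 < A ∧
    ∀ᶠ j in (φ : Filter ℕ), ∀ v ∈ plc S, ∀ σ : M ≃ₐ[ℚ] M, X j ^ (-A) ≤ P.nv v (σ (z j)))

/-- (OMG) elements of `OO`, `Om` and `Sl` (OSR, SLL) -/
def ST_OMG : Prop := ∀ (M : Type) [Field M] [NumberField M] [IsGalois ℚ M] (S : Finset ℕ)
  (P : PF S M) (φ : Ultrafilter ℕ) (X : ℕ → ℝ), (∀ p ∈ S, p.Prime) →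
  Tendsto X (φ : Filter ℕ) atTop →
  (∀ g : UP M φ, g ∈ OO P φ X ↔ ∃ z : ℕ → M, OS P φ X z ∧ gm φ z = g) ∧
  (∀ g : UP M φ, g ∈ Om P φ X ↔ ∃ z z' : ℕ → M, OS P φ X z ∧ OS P φ X z' ∧
    (∀ᶠ j in (φ : Filter ℕ), z' j ≠ 0) ∧ gm φ (fun j => z j / z' j) = g) ∧
  (∀ g : Om P φ X, g ∈ Sl P φ X ↔ SlG P φ X (g : UP M φ)) ∧
  (∀ z : ℕ → M, OS P φ X z → gm φ z ∈ Om P φ X) ∧
  (∀ z : ℕ → M, Slw P φ X z → gm φ z ∈ Om P φ X) ∧ CharZero (Om P φ X) ∧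
  (∀ g : UP M φ, ∃ z : ℕ → M, gm φ z = g) ∧
  (∀ (g : Om P φ X) (z : ℕ → M), gm φ z = (g : UP M φ) → g ≠ 0 →
    ∃ A : ℝ, 0 < A ∧ ∀ᶠ j in (φ : Filter ℕ), ∀ v ∈ plc S, ∀ σ : M ≃ₐ[ℚ] M,
      X j ^ (-A) ≤ P.nv v (σ (z j)) ∧ P.nv v (σ (z j)) ≤ X j ^ A)

/-- (NRM) the absolute values exist (OMG): `nu i g = exp (lim (log nv_v (σ z_j) / log X_j))`, the
limit along the ultrafilter of a bounded function -/
def ST_NRM : Prop := ∀ (M : Type) [Field M] [NumberField M] [IsGalois ℚ M] (S : Finset ℕ)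
  (P : PF S M) (φ : Ultrafilter ℕ) (X : ℕ → ℝ), (∀ p ∈ S, p.Prime) →
  Tendsto X (φ : Filter ℕ) atTop → ∃ nu : Pl S M → AbsoluteValue (Om P φ X) ℝ, IsN P φ X nu

/-- (SSO) the Subspace theorem with slow coefficients, without consistency condition (SUBTU in the
form `Helper77.JN.subv`, OMG, SLL). Ru - Vojta: let `A i` be the matrices of the `f i` with respect
to `e` and `L t` the `M`-span of the monomials of degree `≤ t` in all their entries (and `1`);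
`dim L (t + 1) ≤ (1 + δ) dim L t` for some `t`. Coordinates: `β' * e l`, `β'` a basis of
`L (t + 1)`; at the place `i` the `M`-independent elements `β * f i k` (`β` a basis of `L t`),
completed by some of the `β' * e l` -/
def ST_SSO : Prop := ∀ (M : Type) [Field M] [NumberField M] [IsGalois ℚ M] (S : Finset ℕ)
  (P : PF S M) (φ : Ultrafilter ℕ) (X : ℕ → ℝ) (nu : Pl S M → AbsoluteValue (Om P φ X) ℝ) (n : ℕ)
  (e : Fin n → Om P φ X) (f : Pl S M → Fin n → Om P φ X), (∀ p ∈ S, p.Prime) →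
  Tendsto X (φ : Filter ℕ) atTop → IsN P φ X nu → (∀ k, (e k : UP M φ) ∈ OO P φ X) →
  LinearIndependent (Sl P φ X) e →
  (∀ i, Submodule.span (Sl P φ X) (Set.range (f i)) = Submodule.span (Sl P φ X) (Set.range e)) →
  1 ≤ ∏ i, ∏ k, nu i (f i k)

/-- (MONG) moderate S-units are monomials in independent ones, up to slow factors; the group
generated by these is closed under the Galois group up to slow factors (MONW applied to all
conjugates, then a basis of the lattice generated by the exponents) -/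
def ST_MONG : Prop := ∀ (M : Type) [Field M] [NumberField M] [IsGalois ℚ M] (S : Finset ℕ)
  (P : PF S M) (φ : Ultrafilter ℕ) (X : ℕ → ℝ) (ι : Type) [Fintype ι] (u : ι → ℕ → M),
  (∀ p ∈ S, p.Prime) → Tendsto X (φ : Filter ℕ) atTop → (∀ i, MU P φ X (u i)) →
  ∃ (r : ℕ) (w : Fin r → ℕ → M), (∀ k, MU P φ X (w k)) ∧ IndW P φ X w ∧
    (∀ (i : ι) (τ : M ≃ₐ[ℚ] M), ∃ (s : ℕ → M) (m : Fin r → ℤ), Slw P φ X s ∧
      ∀ᶠ j in (φ : Filter ℕ), τ (u i j) = s j * monM (fun k => w k j) m) ∧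
    (∀ (k : Fin r) (τ : M ≃ₐ[ℚ] M), ∃ (s : ℕ → M) (m : Fin r → ℤ), Slw P φ X s ∧
      ∀ᶠ j in (φ : Filter ℕ), τ (w k j) = s j * monM (fun k => w k j) m)

/-- (SSFX) the concrete structure (OMG, NRM, SSO, SLL, SLW, LAUW) -/
def ST_SSFX : Prop := ∀ (M : Type) [Field M] [NumberField M] [IsGalois ℚ M] (S : Finset ℕ)
  (P : PF S M) (φ : Ultrafilter ℕ) (X : ℕ → ℝ) (r : ℕ) (w : Fin r → ℕ → M),
  (∀ p ∈ S, p.Prime) → Tendsto X (φ : Filter ℕ) atTop → (∀ k, MU P φ X (w k)) →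
  IndW P φ X w → ∃ D : SSF (Sl P φ X) (Om P φ X) (Pl S M) r, IsD P φ X w D

/-- (GALX) the automorphisms (OMG, OSR, SLW) -/
def ST_GALX : Prop := ∀ (M : Type) [Field M] [NumberField M] [IsGalois ℚ M] (S : Finset ℕ)
  (P : PF S M) (φ : Ultrafilter ℕ) (X : ℕ → ℝ) (τ : M ≃ₐ[ℚ] M), (∀ p ∈ S, p.Prime) →
  Tendsto X (φ : Filter ℕ) atTop →
  ∃ γ : Om P φ X ≃+* Om P φ X,
    (∀ (g : Om P φ X) (z : ℕ → M), gm φ z = (g : UP M φ) →
      gm φ (fun j => τ (z j)) = ((γ g : Om P φ X) : UP M φ)) ∧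
    ∀ (r : ℕ) (w : Fin r → ℕ → M) (D : SSF (Sl P φ X) (Om P φ X) (Pl S M) r),
      (∀ k, MU P φ X (w k)) → IsD P φ X w D →
      (∀ v σ z, D.nu (v, σ * τ) z = D.nu (v, σ) (γ z)) ∧
      ((∀ k, ∃ (s : ℕ → M) (m : Fin r → ℤ), Slw P φ X s ∧
        ∀ᶠ j in (φ : Filter ℕ), τ (w k j) = s j * monM (fun k => w k j) m) →
        ∀ z ∈ D.K, γ z ∈ D.K)

/-- (RDX) elements of `D.R` as sequences (RK, OMG, SLW, SPW) -/
def ST_RDX : Prop := ∀ (M : Type) [Field M] [NumberField M] [IsGalois ℚ M] (S : Finset ℕ)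
  (P : PF S M) (φ : Ultrafilter ℕ) (X : ℕ → ℝ) (r : ℕ) (w : Fin r → ℕ → M)
  (D : SSF (Sl P φ X) (Om P φ X) (Pl S M) r),
  (∀ p ∈ S, p.Prime) → Tendsto X (φ : Filter ℕ) atTop → (∀ k, MU P φ X (w k)) →
  IsD P φ X w D →
  (∀ (g : Om P φ X) (z : ℕ → M), g ∈ D.R → gm φ z = (g : UP M φ) → SpM P φ X z) ∧
  (∀ (t : ℕ) (c u : Fin t → ℕ → M) (z : ℕ → M), (∀ i, Slw P φ X (c i)) →
    (∀ i, ∃ (s : ℕ → M) (m : Fin r → ℤ), Slw P φ X s ∧
      ∀ᶠ j in (φ : Filter ℕ), u i j = s j * monM (fun k => w k j) m) →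
    (∀ᶠ j in (φ : Filter ℕ), ∑ i, c i j * u i j = z j) → ∃ g ∈ D.R, gm φ z = (g : UP M φ))

end Pool.Agent.Helper71.JN
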