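import Pool.Agent.Helper70.SUBW.Asm
import Pool.Agent.Helper71.JN.SheetA
import Pool.Agent.Helper78.JN.OSR
import Pool.Agent.Helper78.JN.OMG
import Pool.Agent.Helper97.JN.NRM
import Pool.Agent.Helper77.JN.SSO
import Pool.Agent.Helper66.JN.MONG
import Pool.Agent.Helper99.JN.SSFX
import Pool.Agent.Helper67.JN.GALX
import Pool.Agent.Helper47.JN.RDX

/-! Assembly of project JN, the concrete structure. -/

set_option autoImplicit false

namespace Pool.Agent.Helper71.JN

open Pool.Agent.Helper70.SUB Pool.Agent.Helper70.SUBL Pool.Agent.Helper77.SUBK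
  Pool.Agent.Helper70.SUBW

theorem j_osr : ST_OSR := _root_.Helper78.JN.OSR w_slw k_svb k_prk
theorem j_omg : ST_OMG := _root_.Helper78.JN.OMG j_osr w_sll
theorem j_nrm : ST_NRM := Pool.Agent.Helper97.JN.NRM j_omg
theorem j_sso : ST_SSO := Pool.Agent.Helper77.JN.SSO w_subtu w_slw k_svb j_omg
theorem j_mong : ST_MONG := Pool.Agent.Helper66.JN.MONG w_slw w_spw
theorem j_ssfx : ST_SSFX :=
  Pool.Agent.Helper99.JN.SSFX j_osr j_omg j_nrm j_sso w_slw w_spw w_u2
theorem j_galx : ST_GALX := Pool.Agent.Helper67.JN.GALX j_osr j_omg w_slw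
theorem j_rdx : ST_RDX := Pool.Agent.Helper47.JN.RDX j_omg w_spw

end Pool.Agent.Helper71.JN
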