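import Pool.Agent.Helper71.JN.SheetF
import Pool.Agent.Helper66.JN.BRG
import Pool.Agent.Helper47.JN.RK
import Pool.Agent.Helper94.JN.T1S

/-!
Project JN, sheet F: row BRGS, from the sequences to the abstract part (S-version).
-/

set_option autoImplicit false

namespace Pool.Agent.Helper71.JN

open Filter Finset Pool.Agent.Helper70.SUB Pool.Agent.Helper77.SUBK Pool.Agent.Helper70.SUBL
  Pool.Agent.Helper70.SUBW Pool.Agent.Helper66.JN

/-- the exponents of the places -/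
noncomputable def cw (v : Option ℕ) : ℝ := if v = none then 1 else 5 / 6

theorem cw_nonneg (v : Option ℕ) : 0 ≤ cw v := by
  unfold cw
  split_ifs <;> norm_num

theorem NS_eq {M : Type} [Field M] [NumberField M] {S : Finset ℕ} (P : PF S M) (d : ℤ) :
    ∏ v ∈ plc S, P.nv v (d : M) ^ cw v = NS S d := by
  have h0 : P.nv none (d : M) ^ cw none = |(d : ℝ)| := by
    rw [nv_none_int]
    simp [cw]
  have h1 : ∀ p ∈ S, P.nv (some p) (d : M) ^ cw (some p) =
      ((padicNorm p (d : ℚ) : ℚ) : ℝ) ^ (5 / 6 : ℝ) := by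
    intro p hp
    have h2 := P.ext (some p) (mem_some hp) (d : ℚ)
    rw [Rat.cast_intCast] at h2
    rw [h2]
    simp [cw, av]
  unfold plc
  rw [Finset.prod_insertNone, h0, Finset.prod_congr rfl h1]
  rfl

theorem expo_le {ι : Type} [Fintype ι] (c a : ι → ℝ) (hc : ∀ v, 0 ≤ c v) {φ : Ultrafilter ℕ}
    {X : ℕ → ℝ} (hX : Tendsto X (φ : Filter ℕ) atTop) (N : ι → ℕ → ℝ)
    (h : ∀ v, ∀ δ : ℝ, 0 < δ → ∀ᶠ j in (φ : Filter ℕ), X j ^ (a v - δ) ≤ N v j) (b : ℝ)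
    (hb : ∀ᶠ j in (φ : Filter ℕ), ∏ v, N v j ^ c v ≤ X j ^ b) : ∑ v, c v * a v ≤ b := by
  refine le_of_forall_pos_le_add fun δ hδ => ?_
  have hC0 : 0 ≤ ∑ v, c v := Finset.sum_nonneg fun v _ => hc v
  set C := ∑ v, c v with hC
  have hδ' : 0 < δ / (C + 1) := div_pos hδ (by linarith)
  have h1 : ∀ᶠ j in (φ : Filter ℕ), ∀ v, X j ^ (a v - δ / (C + 1)) ≤ N v j :=
    Filter.eventually_all.2 fun v => h v _ hδ'
  obtain ⟨j, h2, h3, h4⟩ := (h1.and (hb.and (hX.eventually_ge_atTop 2))).exists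
  have hXp : 0 < X j := by linarith
  have h5 : X j ^ (∑ v, c v * (a v - δ / (C + 1))) ≤ X j ^ b := by
    refine le_trans ?_ h3
    rw [Real.rpow_sum_of_pos hXp]
    refine Finset.prod_le_prod (fun v _ => Real.rpow_nonneg hXp.le _) fun v _ => ?_
    rw [mul_comm, Real.rpow_mul hXp.le]
    exact Real.rpow_le_rpow (Real.rpow_nonneg hXp.le _) (h2 v) (hc v)
  have h6 : ∑ v, c v * (a v - δ / (C + 1)) ≤ b :=
    (Real.rpow_le_rpow_left_iff (by linarith)).1 h5
  have h7 : ∑ v, c v * (a v - δ / (C + 1)) = ∑ v, c v * a v - C * (δ / (C + 1)) := by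
    rw [hC, Finset.sum_mul, ← Finset.sum_sub_distrib]
    exact Finset.sum_congr rfl fun v _ => by ring
  have h8 : C * (δ / (C + 1)) ≤ δ := by
    rw [mul_div_assoc', div_le_iff₀ (by linarith)]
    nlinarith
  linarith

/-- (BRGS) -/
theorem BRGS (hMONG : ST_MONG) (hSSFX : ST_SSFX) (hRDX : ST_RDX) (hOMG : ST_OMG)
    (hOSR : ST_OSR) (hHEART : ST_HEARTS) (hSLW : ST_SLW) : ST_BRGS := by
  intro M _ _ _ S P φ x y X p q β ε ρ hS hε hβ hρ hX hXx hR hR' hR'' hall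
  classical
  obtain ⟨t, c, u, hc, hu, hRs⟩ := hR
  obtain ⟨t', c', u', hc', hu', hRs'⟩ := hR'
  obtain ⟨t'', c'', u'', hc'', hu'', hRs''⟩ := hR''
  obtain ⟨r, w, hw, hI, hmu, hmw⟩ := hMONG M S P φ X (Fin t ⊕ (Fin t' ⊕ Fin t''))
    (Sum.elim u (Sum.elim u' u'')) hS hX
    (by
      rintro (i | i | i)
      · exact hu i
      · exact hu' i
      · exact hu'' i)
  obtain ⟨D, hD⟩ := hSSFX M S P φ X r w hS hX hw hI
  obtain ⟨g1, g2, g3, g4, g5, g6, g7, g8⟩ := hOMG M S P φ X hS hX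
  have : CharZero (Om P φ X) := g6
  obtain ⟨rd1, rd2⟩ := hRDX M S P φ X r w D hS hX hw hD
  obtain ⟨-, -, -, sl4, -, -, -, -, -, -, -, -, sl13⟩ := hSLW M S P φ X hS hX
  obtain ⟨-, -, -, -, -, -, -, os8, -⟩ := hOSR M S P φ X hS hX
  -- sizes
  have hX1 := hX.eventually_ge_atTop 1
  have hα1 : (2 / (2 + ε) : ℝ) < 1 := by
    rw [div_lt_one (by linarith)]
    linarith
  have hα6 : (12 / (2 + ε) : ℝ) < 6 := by
    rw [div_lt_iff₀ (by linarith)]
    linarith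
  have hNS : ∀ᶠ j in (φ : Filter ℕ), NS S (y j ^ 2 - x j ^ 3) ≤ X j ^ (2 / (2 + ε)) := by
    filter_upwards [hall, hXx, hX1] with j h1 h2 h3
    refine h1.2.2.1.trans (le_of_eq ?_)
    rw [← h2, ← Real.rpow_natCast (X j) 2, ← Real.rpow_mul (by linarith)]
    congr 1
    push_cast
    ring
  have hd : ∀ᶠ j in (φ : Filter ℕ), |((y j ^ 2 - x j ^ 3 : ℤ) : ℝ)| ≤ X j ^ (12 / (2 + ε)) := by
    filter_upwards [hNS, hall, hX1] with j h1 h2 h3
    have h4 : (y j ^ 2 - x j ^ 3 : ℤ) ≠ 0 := sub_ne_zero.2 h2.2.1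
    obtain ⟨h5, h6⟩ := Pool.Agent.Helper94.JNS.ns6 hS h4
    refine h5.trans ?_
    have h7 : NS S (y j ^ 2 - x j ^ 3) ^ 6 ≤ (X j ^ (2 / (2 + ε))) ^ 6 :=
      pow_le_pow_left₀ (by linarith) h1 6
    refine h7.trans (le_of_eq ?_)
    rw [← Real.rpow_natCast, ← Real.rpow_mul (by linarith)]
    congr 1
    push_cast
    ring
  have hxb : ∀ᶠ j in (φ : Filter ℕ), |(x j : ℝ)| ≤ X j ^ (2 : ℝ) := by
    filter_upwards [hXx] with j h1
    rw [← h1, Real.rpow_two]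
  have hyb : ∀ᶠ j in (φ : Filter ℕ), |(y j : ℝ)| ≤ X j ^ (4 : ℝ) := by
    filter_upwards [hd, hXx, hX.eventually_ge_atTop 2] with j h1 h2 h3
    set T := X j with hT
    have h4 : |((y j ^ 2 - x j ^ 3 : ℤ) : ℝ)| ≤ T ^ 6 := by
      refine h1.trans ?_
      have h5 : T ^ (12 / (2 + ε)) ≤ T ^ (6 : ℝ) :=
        Real.rpow_le_rpow_of_exponent_le (by linarith) hα6.le
      have h6 : T ^ (6 : ℝ) = T ^ 6 := by
        rw [← Real.rpow_natCast]
        norm_num
      rwa [h6] at h5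
    push_cast at h4
    have h6 : (y j : ℝ) ^ 2 - (x j : ℝ) ^ 3 ≤ T ^ 6 := (abs_le.1 h4).2
    have h7 : (x j : ℝ) ^ 3 ≤ (T ^ 2) ^ 3 := by
      rw [h2, ← abs_pow]
      exact le_abs_self _
    have h8 : (y j : ℝ) ^ 2 ≤ (T ^ 4) ^ 2 := by
      have h10 : 2 * T ^ 6 ≤ T ^ 8 := by
        have h11 : 2 ≤ T ^ 2 := by nlinarith
        have h12 : T ^ 8 = T ^ 2 * T ^ 6 := by ring
        rw [h12]
        exact mul_le_mul_of_nonneg_right h11 (by positivity)
      have h13 : (T ^ 2) ^ 3 = T ^ 6 := by ring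
      have h14 : (T ^ 4) ^ 2 = T ^ 8 := by ring
      rw [h13] at h7
      rw [h14]
      linarith
    have h15 := abs_le_of_sq_le_sq h8 (by positivity)
    have h16 : T ^ (4 : ℝ) = T ^ 4 := by
      rw [← Real.rpow_natCast]
      norm_num
    rw [h16]
    exact h15
  -- the classes of `x` and `y`
  have hxOS : OS P φ X (fun j => (x j : M)) := os8 x 2 hxb
  have hyOS : OS P φ X (fun j => (y j : M)) := os8 y 4 hyb
  obtain ⟨gx, hgx⟩ : ∃ g : Om P φ X, gm φ (fun j => (x j : M)) = (g : UP M φ) :=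
    ⟨⟨_, g4 _ hxOS⟩, rfl⟩
  obtain ⟨gy, hgy⟩ : ∃ g : Om P φ X, gm φ (fun j => (y j : M)) = (g : UP M φ) :=
    ⟨⟨_, g4 _ hyOS⟩, rfl⟩
  have hgxO : gx ∈ D.O := (hD.hO gx).2 ((g1 _).2 ⟨_, hxOS, hgx⟩)
  have hgyO : gy ∈ D.O := (hD.hO gy).2 ((g1 _).2 ⟨_, hyOS, hgy⟩)
  -- the conjugates of `R` and `R'`
  have hRD : ∀ τ : M ≃ₐ[ℚ] M, ∃ g ∈ D.R, gm φ (fun j => τ (p j)) = ((g : Om P φ X) : UP M φ) := by
    intro τ
    refine rd2 t (fun i j => τ (c i j)) (fun i j => τ (u i j)) _ (fun i => sl4 _ τ (hc i))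
      (fun i => hmu (Sum.inl i) τ) ?_
    filter_upwards [hRs] with j hj
    rw [← hj, map_sum]
    exact Finset.sum_congr rfl fun i _ => (map_mul τ _ _).symm
  have hRD' : ∀ τ : M ≃ₐ[ℚ] M, ∃ g ∈ D.R,
      gm φ (fun j => τ (q j)) = ((g : Om P φ X) : UP M φ) := by
    intro τ
    refine rd2 t' (fun i j => τ (c' i j)) (fun i j => τ (u' i j)) _ (fun i => sl4 _ τ (hc' i))
      (fun i => hmu (Sum.inr (Sum.inl i)) τ) ?_
    filter_upwards [hRs'] with j hj
    rw [← hj, map_sum]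
    exact Finset.sum_congr rfl fun i _ => (map_mul τ _ _).symm
  have hRD'' : ∃ g ∈ D.R, gm φ (fun j => (((y j ^ 2 - x j ^ 3 : ℤ)) : M)) =
      ((g : Om P φ X) : UP M φ) := by
    refine rd2 t'' c'' u'' _ hc'' (fun i => ?_) hRs''
    have h1 := hmu (Sum.inr (Sum.inr i)) 1
    simpa only [Sum.elim_inr, AlgEquiv.one_apply] using h1
  choose Rt hRtR hRt using hRD
  choose Rt' hRtR' hRt' using hRD'
  obtain ⟨gd, hgdR, hgd⟩ := hRD''
  -- the sizes in terms of the absolute values of `D`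
  have hN := hD.hN
  have leN : ∀ (i : Pl S M) (g : Om P φ X) (z : ℕ → M), gm φ z = (g : UP M φ) → ∀ a : ℝ,
      (∀ᶠ j in (φ : Filter ℕ), P.nv i.1 (i.2 (z j)) ≤ X j ^ a) → D.nu i g ≤ Real.exp a :=
    fun i g z hg a h => ((hN.2 i g z hg a).1).2 (leA_of hX i z a h)
  have geN : ∀ (i : Pl S M) (g : Om P φ X) (z : ℕ → M), gm φ z = (g : UP M φ) → ∀ a : ℝ,
      (∀ᶠ j in (φ : Filter ℕ), X j ^ a ≤ P.nv i.1 (i.2 (z j))) → Real.exp a ≤ D.nu i g :=
    fun i g z hg a h => ((hN.2 i g z hg a).2).2 (geA_of hX i z a h)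
  let J : Finset (Pl S M) := Finset.univ.filter fun i => (i.1 : Option ℕ) = none
  have hJm : ∀ i : Pl S M, i ∈ J ↔ (i.1 : Option ℕ) = none := fun i => by simp [J]
  have hfin : ∀ i : Pl S M, i ∉ J → ∀ n : ℤ, P.nv i.1 (n : M) ≤ 1 := by
    intro i hi n
    rw [hJm] at hi
    obtain ⟨p, hp⟩ := Option.ne_none_iff_exists'.1 hi
    have h1 : some p ∈ plc S := hp ▸ i.1.2
    rw [hp]
    exact P.int_le Pool.Agent.Helper15.SUB.AV hS (of_mem_some h1) n
  have hcd : gm φ (fun j => (((y j ^ 2 - x j ^ 3 : ℤ)) : M)) =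
      ((gy ^ 2 - gx ^ 3 : Om P φ X) : UP M φ) := by
    push_cast
    rw [← hgx, ← hgy]
    rfl
  have hsx : ∀ i ∈ J, D.nu i gx = Real.exp 2 := by
    intro i hi
    rw [hJm] at hi
    apply le_antisymm
    · refine leN i gx _ hgx 2 ?_
      filter_upwards [hXx] with j h1
      rw [hi, map_intCast, nv_none_int, ← h1, Real.rpow_two]
    · refine geN i gx _ hgx 2 ?_
      filter_upwards [hXx] with j h1
      rw [hi, map_intCast, nv_none_int, ← h1, Real.rpow_two]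
  have hsd : ∀ i ∈ J, D.nu i (gy ^ 2 - gx ^ 3) < Real.exp 6 := by
    intro i hi
    rw [hJm] at hi
    refine (leN i _ _ hcd (12 / (2 + ε)) ?_).trans_lt (Real.exp_lt_exp.2 hα6)
    filter_upwards [hd] with j h1
    rw [hi, map_intCast, nv_none_int]
    exact h1
  have hult : ∀ (i : Pl S M) (g h : Om P φ X), D.nu i (g + h) ≤ max (D.nu i g) (D.nu i h) :=
    fun i g h => D.ult i g h
  have hsy : ∀ i ∈ J, D.nu i gy = Real.exp 3 := by
    intro i hi
    have h1 : D.nu i (gx ^ 3) = Real.exp 6 := by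
      rw [map_pow, hsx i hi, ← Real.exp_nat_mul]
      norm_num
    have h2 : D.nu i (gx ^ 3 + (gy ^ 2 - gx ^ 3)) = D.nu i (gx ^ 3) := by
      refine u_iso (D.nu i) (hult i) ?_
      rw [h1]
      exact hsd i hi
    have h3 : gx ^ 3 + (gy ^ 2 - gx ^ 3) = gy ^ 2 := by ring
    rw [h3, h1, map_pow] at h2
    have h4 : D.nu i gy ^ 2 = Real.exp 3 ^ 2 := by
      rw [h2, ← Real.exp_nat_mul]
      norm_num
    exact (pow_left_inj₀ ((D.nu i).nonneg _) (Real.exp_pos _).le (by norm_num)).1 h4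
  -- the differences with the conjugates of `p / q`
  have hb : ∀ i ∈ J, D.nu i (gx - (Rt (i.2)⁻¹ / Rt' (i.2)⁻¹) ^ 2) ≤ Real.exp β := by
    intro i hi
    rw [hJm] at hi
    refine leN i _ (fun j => (x j : M) - ((i.2)⁻¹ (p j) / (i.2)⁻¹ (q j)) ^ 2) ?_ _ ?_
    · push_cast
      rw [← hgx, ← hRt, ← hRt']
      rfl
    · filter_upwards [hall] with j h1
      have h2 : i.2 ((x j : M) - ((i.2)⁻¹ (p j) / (i.2)⁻¹ (q j)) ^ 2) =
          (x j : M) - (p j / q j) ^ 2 := by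
        rw [map_sub, map_pow, map_intCast, map_div₀, ← AlgEquiv.mul_apply, ← AlgEquiv.mul_apply,
          mul_inv_cancel, AlgEquiv.one_apply, AlgEquiv.one_apply]
      rw [h2, hi]
      exact h1.2.2.2.1
  have hyR : ∀ i ∈ J, D.nu i (gy - (Rt (i.2)⁻¹ / Rt' (i.2)⁻¹) ^ 3) < Real.exp 3 := by
    intro i hi
    rw [hJm] at hi
    refine (leN i _ (fun j => (y j : M) - ((i.2)⁻¹ (p j) / (i.2)⁻¹ (q j)) ^ 3) ?_ (3 - ρ)
      ?_).trans_lt (Real.exp_lt_exp.2 (by linarith))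
    · push_cast
      rw [← hgy, ← hRt, ← hRt']
      rfl
    · filter_upwards [hall] with j h1
      have h2 : i.2 ((y j : M) - ((i.2)⁻¹ (p j) / (i.2)⁻¹ (q j)) ^ 3) =
          (y j : M) - (p j / q j) ^ 3 := by
        rw [map_sub, map_pow, map_intCast, map_div₀, ← AlgEquiv.mul_apply, ← AlgEquiv.mul_apply,
          mul_inv_cancel, AlgEquiv.one_apply, AlgEquiv.one_apply]
      rw [h2, hi]
      exact h1.2.2.2.2
  have hs1 : ∀ i ∈ J, D.nu i (Rt (i.2)⁻¹ / Rt' (i.2)⁻¹) = Real.exp 1 := by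
    intro i hi
    set ri := Rt (i.2)⁻¹ / Rt' (i.2)⁻¹ with hri
    have h1 : D.nu i (gx + -(gx - ri ^ 2)) = D.nu i gx := by
      refine u_iso (D.nu i) (hult i) ?_
      rw [AbsoluteValue.map_neg, hsx i hi]
      exact (hb i hi).trans_lt (Real.exp_lt_exp.2 (by linarith))
    have h3 : gx + -(gx - ri ^ 2) = ri ^ 2 := by ring
    rw [h3, hsx i hi, map_pow] at h1
    have h4 : D.nu i ri ^ 2 = Real.exp 1 ^ 2 := by
      rw [h1, ← Real.exp_nat_mul]
      norm_num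
    exact (pow_left_inj₀ ((D.nu i).nonneg _) (Real.exp_pos _).le (by norm_num)).1 h4
  have hK : ∀ τ : M ≃ₐ[ℚ] M, Rt τ / Rt' τ ∈ D.K := fun τ =>
    D.K.div_mem (Pool.Agent.Helper47.JN.R_le_K D _ (hRtR τ))
      (Pool.Agent.Helper47.JN.R_le_K D _ (hRtR' τ))
  have hgdc : gd = gy ^ 2 - gx ^ 3 := Subtype.ext (hgd.symm.trans hcd)
  have hgd0 : gy ^ 2 - gx ^ 3 ≠ 0 := by
    intro h0
    rw [h0] at hcd
    have h1 : gm φ (fun j => (((y j ^ 2 - x j ^ 3 : ℤ)) : M)) = gm φ (fun _ => (0 : M)) := by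
      rw [hcd]
      rfl
    rw [Pool.Agent.Helper47.SUBW.gm_eq] at h1
    obtain ⟨j, h2, h3⟩ := (h1.and hall).exists
    have h4 : (y j ^ 2 - x j ^ 3 : ℤ) = 0 := by exact_mod_cast h2
    exact h3.2.1 (sub_eq_zero.1 h4)
  -- the product condition
  obtain ⟨g, hg⟩ : ∃ g, g = gy ^ 2 - gx ^ 3 := ⟨_, rfl⟩
  have hgpos : ∀ i, 0 < D.nu i g := fun i => (D.nu i).pos (hg ▸ hgd0)
  have key : ∀ σ : M ≃ₐ[ℚ] M,
      ∑ v : {v : Option ℕ // v ∈ plc S}, cw v * Real.log (D.nu (v, σ) g) ≤ 2 / (2 + ε) := by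
    intro σ
    refine expo_le (fun v : {v : Option ℕ // v ∈ plc S} => cw v)
      (fun v => Real.log (D.nu (v, σ) g)) (fun v => cw_nonneg v) hX
      (fun v j => P.nv v (((y j ^ 2 - x j ^ 3 : ℤ)) : M)) ?_ _ ?_
    · intro v δ hδ
      have h1 : Real.exp (Real.log (D.nu (v, σ) g)) ≤ D.nu (v, σ) g := by
        rw [Real.exp_log (hgpos _)]
      have h2 := ((hN.2 (v, σ) g _ (hg ▸ hcd) (Real.log (D.nu (v, σ) g))).2).1 h1 δ hδ
      filter_upwards [h2] with j h3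
      rwa [map_intCast] at h3
    · filter_upwards [hNS] with j h1
      refine le_trans (le_of_eq ?_) h1
      rw [← NS_eq P]
      exact Finset.prod_coe_sort (plc S)
        (fun v => P.nv v (((y j ^ 2 - x j ^ 3 : ℤ)) : M) ^ cw v)
  have hpd : (∏ i ∈ J, D.nu i g * Real.exp (-1)) *
      ∏ i ∈ univ.filter (fun i => ¬ i ∈ J), D.nu i g ^ (5 / 6 : ℝ) < 1 := by
    obtain ⟨F, hF⟩ : ∃ F : Pl S M → ℝ, F = fun i => Real.exp (cw i.1 *
        Real.log (D.nu i g) - (if (i.1 : Option ℕ) = none then 1 else 0)) := ⟨_, rfl⟩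
    have e1 : ∏ i ∈ J, D.nu i g * Real.exp (-1) = ∏ i ∈ univ.filter (fun i => i ∈ J), F i := by
      have h1 : univ.filter (fun i => i ∈ J) = J := by
        ext i
        simp
      rw [h1]
      refine Finset.prod_congr rfl fun i hi => ?_
      rw [hJm] at hi
      rw [hF]
      simp only [cw, if_pos hi, one_mul, sub_eq_add_neg, Real.exp_add]
      rw [Real.exp_log (hgpos i)]
    have e2 : ∏ i ∈ univ.filter (fun i => ¬ i ∈ J), D.nu i g ^ (5 / 6 : ℝ) =
        ∏ i ∈ univ.filter (fun i => ¬ i ∈ J), F i := by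
      refine Finset.prod_congr rfl fun i hi => ?_
      rw [Finset.mem_filter, hJm] at hi
      rw [hF]
      simp only [cw, if_neg hi.2, sub_zero]
      rw [Real.rpow_def_of_pos (hgpos i), mul_comm]
    rw [e1, e2, Finset.prod_filter_mul_prod_filter_not, Fintype.prod_prod_type_right]
    have e3 : ∀ σ : M ≃ₐ[ℚ] M, ∏ v : {v : Option ℕ // v ∈ plc S}, F (v, σ) < 1 := by
      intro σ
      rw [hF]
      simp only
      rw [← Real.exp_sum, Finset.sum_sub_distrib, Real.exp_lt_one_iff, sub_neg]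
      have h1 : ∑ v : {v : Option ℕ // v ∈ plc S}, (if (v : Option ℕ) = none then (1 : ℝ) else 0) =
          1 := by
        rw [Finset.sum_eq_single (⟨none, mem_none⟩ : {v : Option ℕ // v ∈ plc S})]
        · simp
        · intro v _ hv
          rw [if_neg]
          intro h2
          exact hv (Subtype.ext h2)
        · intro h2
          exact absurd (Finset.mem_univ _) h2
      rw [h1]
      exact (key σ).trans_lt hα1
    have e4 : ∀ σ : M ≃ₐ[ℚ] M, 0 ≤ ∏ v : {v : Option ℕ // v ∈ plc S}, F (v, σ) := fun σ =>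
      Finset.prod_nonneg fun v _ => by rw [hF]; exact (Real.exp_pos _).le
    calc ∏ σ : M ≃ₐ[ℚ] M, ∏ v : {v : Option ℕ // v ∈ plc S}, F (v, σ)
        ≤ ∏ v : {v : Option ℕ // v ∈ plc S}, F (v, 1) := by
          rw [← Finset.mul_prod_erase Finset.univ _ (Finset.mem_univ (1 : M ≃ₐ[ℚ] M))]
          exact mul_le_of_le_one_right (e4 1)
            (Finset.prod_le_one (fun σ _ => e4 σ) fun σ _ => (e3 σ).le)
      _ < 1 := e3 1
  have hH : HS D J β gx gy (fun i => Rt (i.2)⁻¹ / Rt' (i.2)⁻¹) := by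
    refine
      { hβ := hβ
        hJ := ⟨(⟨none, mem_none⟩, 1), (hJm _).2 rfl⟩
        xO := hgxO
        yO := hgyO
        dK := ?_
        d0 := hgd0
        fx := ?_
        fy := ?_
        sx := hsx
        sy := hsy
        sd := hsd
        pd := ?_
        RR := fun i _ => hK _
        s1 := hs1
        s2 := hb
        s4 := hyR }
    · rw [← hgdc]
      exact Pool.Agent.Helper47.JN.R_le_K D _ hgdR
    · intro i hi
      have h1 := leN i gx _ hgx 0 (Eventually.of_forall fun j => by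
        rw [map_intCast, Real.rpow_zero]
        exact hfin i hi _)
      rwa [Real.exp_zero] at h1
    · intro i hi
      have h1 := leN i gy _ hgy 0 (Eventually.of_forall fun j => by
        rw [map_intCast, Real.rpow_zero]
        exact hfin i hi _)
      rwa [Real.exp_zero] at h1
    · rw [← hg]
      refine lt_of_eq_of_lt ?_ hpd
      congr 1
      refine Finset.prod_congr ?_ fun _ _ => rfl
      ext i
      simp
  exact hHEART _ _ _ r D J β gx gy _ hH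

end Pool.Agent.Helper71.JN
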