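import Pool.Agent.Helper71.JN.SheetB
import Pool.Agent.Helper47.JN.RK
import Pool.Agent.Helper47.JN.RIC
import Pool.Agent.Helper70.JN.GSK
import Pool.Agent.Helper78.JN.SPN
import Pool.Agent.Helper99.JN.APX
import Pool.Agent.Helper27.JN.REL4
import Pool.Agent.Helper27.JN.YKX
import Pool.Agent.Helper94.JN.TRS
import Pool.Agent.Helper2.JN.IZ
import Pool.Agent.Helper97.JN.N3
import Pool.Agent.Helper9.JN.N2A
import Pool.Agent.Helper66.JN.N2B
import Pool.Agent.Helper66.JN.HEART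
import Pool.Agent.Helper53.JN.PRIM

/-! Assembly of project JN, abstract part. -/

set_option autoImplicit false

namespace Pool.Agent.Helper71.JN

theorem j_rk : ST_RK := Pool.Agent.Helper47.JN.RK
theorem j_ric : ST_RIC := Pool.Agent.Helper47.JN.RIC
theorem j_gsk : ST_GSK := Pool.Agent.Helper70.JN.st_GSK
theorem j_apx : ST_APX := Pool.Agent.Helper99.JN.APX
theorem j_rel4 : ST_REL4 := Pool.Agent.Helper27.JN.REL4 j_apx j_gsk
theorem j_ykx : ST_YKX := Pool.Agent.Helper27.JN.YKX j_rel4 j_apx j_gsk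
theorem j_trs : ST_TRS := Pool.Agent.Helper94.JN.TRS j_rel4 j_apx j_gsk
theorem j_n3 : ST_N3 := Pool.Agent.Helper97.JN.N3
theorem j_n2b : ST_N2B := Pool.Agent.Helper66.JN.N2B j_rk j_apx

theorem j_prim : ST_PRIM := Pool.Agent.Helper53.JN.PRIM
theorem j_spn : ST_SPN := _root_.Helper78.JN.SPN j_prim
theorem j_iz : ST_IZ := Pool.Agent.Helper2.JN.IZ j_spn j_prim j_ric j_rk j_apx
theorem j_n2a : ST_N2A := Pool.Agent.Helper9.JN.N2A j_iz j_prim j_ric j_rk
theorem j_heart : ST_HEART :=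
  Pool.Agent.Helper66.JN.HEART j_trs j_ykx j_iz j_n3 j_n2a j_n2b j_prim

end Pool.Agent.Helper71.JN
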