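import Pool.Agent.Helper71.JN.SheetA

/-!
Project JN, third sheet: the application to Hall's problem.
-/

set_option autoImplicit false

namespace Pool.Agent.Helper71.JN

open Filter Finset Pool.Agent.Helper70.SUB Pool.Agent.Helper77.SUBK Pool.Agent.Helper70.SUBL
  Pool.Agent.Helper70.SUBW

/-- (BIN) truncated binomial series for the exponents `1 / n` and `-1 / n` (induction on `K`) -/
def ST_BIN : Prop := ∀ n K : ℕ, 1 ≤ n → 1 ≤ K → ∃ p p' : Polynomial ℚ,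
  p.coeff 0 = 1 ∧ p'.coeff 0 = 1 ∧
  (∃ u : Polynomial ℚ, p ^ n - (1 + Polynomial.X) = Polynomial.X ^ K * u) ∧
  (∃ u : Polynomial ℚ, p * p' - 1 = Polynomial.X ^ K * u)

/-- (ROOT) the `n`-th root of `w ^ n + A` (BIN, SPW, SLW): `R = w p(v)`, `R' = w⁻¹ p'(v)` with
`v = A / w ^ n` and `K` large (`nv none w` is at most a power of `X`) -/
def ST_ROOT : Prop := ∀ (M : Type) [Field M] [NumberField M] [IsGalois ℚ M] (S : Finset ℕ)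
  (P : PF S M) (φ : Ultrafilter ℕ) (X : ℕ → ℝ) (n : ℕ) (w A : ℕ → M) (ρ B : ℝ),
  (∀ p ∈ S, p.Prime) → Tendsto X (φ : Filter ℕ) atTop → 1 ≤ n → 0 < ρ → MU P φ X w →
  SpM P φ X A →
  (∀ᶠ j in (φ : Filter ℕ), P.nv none (A j) ≤ P.nv none (w j) ^ n * X j ^ (-ρ)) →
  ∃ R R' : ℕ → M, SpM P φ X R ∧ SpM P φ X R' ∧ ∀ᶠ j in (φ : Filter ℕ),
    P.nv none (R j ^ n - (w j ^ n + A j)) ≤ X j ^ (-B) ∧
    P.nv none (R j * R' j - 1) ≤ X j ^ (-B) ∧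
    P.nv none (R j - w j) ≤ P.nv none (w j) * X j ^ (-(ρ / 2))

/-- `u` is a monomial in the `g l` with exponents at most `H` -/
def HE {M : Type} [Field M] {k : ℕ} (g : Fin k → M) (H : ℝ) (u : M) : Prop :=
  ∃ e : Fin k → ℤ, (∀ l, |(e l : ℝ)| ≤ H) ∧ u = ∏ l, g l ^ e l

/-- (MOD2) `ξ` is close to `w ^ n +` smaller terms; then everything is moderate in the scale
`|ξ|` (DOMW with `x := z` if the sum is an integer `z`, with a change of scale by the last item of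
SLW; direct if the exponents are bounded; SLW, SPW, SVB) -/
def ST_MOD2 : Prop := ∀ (M : Type) [Field M] [NumberField M] [IsGalois ℚ M] (S : Finset ℕ)
  (P : PF S M) (φ : Ultrafilter ℕ) (n k t : ℕ) (g : Fin k → M) (δ B θ : ℝ) (w : ℕ → M)
  (c : Fin t → ℕ → ℤ) (a : Fin t → ℕ → M) (ξ : ℕ → ℤ), (∀ p ∈ S, p.Prime) → 1 ≤ n → 0 < δ →
  δ < n → θ < 1 → (∀ l, SV S (g l)) → Tendsto (fun j => |(ξ j : ℝ)|) (φ : Filter ℕ) atTop →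
  (∀ᶠ j in (φ : Filter ℕ), SV S (w j)) → (∀ i, ∀ᶠ j in (φ : Filter ℕ), SV S (a i j)) →
  (∀ i, Slw P φ (fun j => |(ξ j : ℝ)|) (fun j => (c i j : M))) →
  (∀ i, ∀ᶠ j in (φ : Filter ℕ),
    P.nv none ((c i j : M) * a i j) ≤ P.nv none (w j) ^ ((n : ℝ) - δ)) →
  (∀ᶠ j in (φ : Filter ℕ),
    P.nv none ((ξ j : M) - (w j ^ n + ∑ i, (c i j : M) * a i j)) ≤ |(ξ j : ℝ)| ^ θ) →
  (∀ᶠ j in (φ : Filter ℕ), (∃ z : ℤ, w j ^ n + ∑ i, (c i j : M) * a i j = (z : M)) ∨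
    (HE g (B * Real.log |(ξ j : ℝ)|) (w j) ∧ ∀ i, HE g (B * Real.log |(ξ j : ℝ)|) (a i j))) →
  MU P φ (fun j => |(ξ j : ℝ)|) w ∧
    SpM P φ (fun j => |(ξ j : ℝ)|) (fun j => ∑ i, (c i j : M) * a i j) ∧
    ∀ᶠ j in (φ : Filter ℕ), |(ξ j : ℝ)| ≤ 2 * P.nv none (w j) ^ n ∧
      P.nv none (w j) ^ n ≤ 2 * |(ξ j : ℝ)| ∧
      P.nv none (∑ i, (c i j : M) * a i j) ≤ t * P.nv none (w j) ^ ((n : ℝ) - δ)

/-- (BRG) from the sequences to the abstract part (MONG, SSFX, GALX, RDX, OMG, OSR, HEART, MAINW,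
SLW): `I = Pl S M`, `J` = the places `(none, σ)`, `R (none, σ) = σ⁻¹ R`, `D` from SSFX for the
units of `R` and `R'`; HEART gives `x, y ∈ D.R`, hence `Spa`, and MAINW (change of scale from
`X = |x| ^ (1/2)` to `|x|`) gives the contradiction -/
def ST_BRG : Prop := ∀ (M : Type) [Field M] [NumberField M] [IsGalois ℚ M] (S : Finset ℕ)
  (P : PF S M) (φ : Ultrafilter ℕ) (x y : ℕ → ℤ) (X : ℕ → ℝ) (R R' : ℕ → M) (β ε ρ : ℝ),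
  (∀ p ∈ S, p.Prime) → 0 < ε → 0 ≤ β → β < 1 / 2 → 0 < ρ → Tendsto X (φ : Filter ℕ) atTop →
  (∀ᶠ j in (φ : Filter ℕ), X j ^ 2 = |(x j : ℝ)|) → SpM P φ X R → SpM P φ X R' →
  (∀ᶠ j in (φ : Filter ℕ), y j ^ 2 ≠ x j ^ 3 ∧
    |((y j ^ 2 - x j ^ 3 : ℤ) : ℝ)| ≤ |(x j : ℝ)| ^ (1 / (2 + ε)) ∧
    P.nv none ((x j : M) - R j ^ 2) ≤ X j ^ β ∧
    P.nv none (R j * R' j - 1) ≤ X j ^ (-4 : ℝ) ∧
    P.nv none ((y j : M) - R j ^ 3) ≤ X j ^ (3 - ρ)) → False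

/-- (T1BJ) `x` is close to `w ^ 2 +` smaller terms, `y` is an arbitrary integer (EXTW, PFE, SLW,
SPW, MOD2, ROOT with `n = 2`, BRG). `X = |x| ^ (1/2)`, `β = 1/2 - min η (1/4)`; the sign of `R` is
the one with `|y - R ^ 3| ≤ |y + R ^ 3|` (constant along `φ`) -/
def ST_T1BJ : Prop := ∀ (M : Type) [Field M] [NumberField M] [IsGalois ℚ M] (S : Finset ℕ)
  (ψ : M →+* ℂ) (k t : ℕ) (g : Fin k → M) (ε δ η B : ℝ), (∀ p ∈ S, p.Prime) →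
  (∀ l, SV S (g l)) → 0 < ε → 0 < δ → δ < 2 → 0 < η →
  ∃ κ : ℝ, 0 < κ ∧ ∃ C : ℝ, ∀ (w : M) (c : Fin t → ℤ) (a : Fin t → M) (x y : ℤ),
    SV S w → (∀ i, SV S (a i)) → (∀ i, |(c i : ℝ)| ≤ |(x : ℝ)| ^ κ) →
    (∀ i, ‖ψ ((c i : M) * a i)‖ ≤ ‖ψ w‖ ^ (2 - δ)) →
    ‖(x : ℂ) - ψ (w ^ 2 + ∑ i, (c i : M) * a i)‖ ≤ |(x : ℝ)| ^ (1 / 4 - η) →
    ((∃ z : ℤ, w ^ 2 + ∑ i, (c i : M) * a i = (z : M)) ∨
      (HE g (B * Real.log |(x : ℝ)|) w ∧ ∀ i, HE g (B * Real.log |(x : ℝ)|) (a i))) →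
    y ^ 2 ≠ x ^ 3 →
    Real.log |(x : ℝ)| ≤ (2 + ε) * Real.log |((y ^ 2 - x ^ 3 : ℤ) : ℝ)| + C

/-- (T1CJ) `y` is close to `w ^ 3 +` smaller terms, `x` is an arbitrary integer; `M` contains the
cube roots of unity (EXTW, PFE, SLW, SPW, MOD2, ROOT with `n = 3`, BRG). `X = |x| ^ (1/2)`,
`|y| ~ X ^ 3`; `R ^ 3 = w ^ 3 + A` up to `X ^ (-B)`, `|y - R ^ 3| ≤ X ^ (3/2 - 3 η + ..)`,
`x ^ 3 - R ^ 6 = (x - R ^ 2) (x - ζ R ^ 2) (x - ζ ^ 2 R ^ 2)` has size `≤ X ^ (9/2 - ..)`, so one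
factor is at most `X ^ β` with `β < 1/2`; replace `R, R'` by `ζ ^ i R, ζ ^ (-i) R'` -/
def ST_T1CJ : Prop := ∀ (M : Type) [Field M] [NumberField M] [IsGalois ℚ M] (S : Finset ℕ)
  (ψ : M →+* ℂ) (ζ : M) (k t : ℕ) (g : Fin k → M) (ε δ η B : ℝ), (∀ p ∈ S, p.Prime) →
  (∀ l, SV S (g l)) → ζ ^ 2 + ζ + 1 = 0 → 0 < ε → 0 < δ → δ < 3 → 0 < η →
  ∃ κ : ℝ, 0 < κ ∧ ∃ C : ℝ, ∀ (w : M) (c : Fin t → ℤ) (b : Fin t → M) (x y : ℤ),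
    SV S w → (∀ i, SV S (b i)) → (∀ i, |(c i : ℝ)| ≤ |(y : ℝ)| ^ κ) →
    (∀ i, ‖ψ ((c i : M) * b i)‖ ≤ ‖ψ w‖ ^ (3 - δ)) →
    ‖(y : ℂ) - ψ (w ^ 3 + ∑ i, (c i : M) * b i)‖ ≤ |(y : ℝ)| ^ (1 / 2 - η) →
    ((∃ z : ℤ, w ^ 3 + ∑ i, (c i : M) * b i = (z : M)) ∨
      (HE g (B * Real.log |(y : ℝ)|) w ∧ ∀ i, HE g (B * Real.log |(y : ℝ)|) (b i))) →
    y ^ 2 ≠ x ^ 3 →
    Real.log |(x : ℝ)| ≤ (2 + ε) * Real.log |((y ^ 2 - x ^ 3 : ℤ) : ℝ)| + C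

/-- `n` is within `|n| ^ θ` of a number `z = g ^ e₀ + ∑ c i * g ^ e i` with at most `t` further
terms, integral coefficients `|c i| ≤ |n| ^ κ` and `|c i * g ^ e i| ≤ |g ^ e₀| ^ (1 - δ)`, such
that `z` is an integer or the exponents are at most `B log |n|` -/
def Near {k : ℕ} (g : Fin k → ℂ) (t : ℕ) (δ B κ θ : ℝ) (n : ℤ) : Prop :=
  ∃ (e₀ : Fin k → ℤ) (e : Fin t → Fin k → ℤ) (c : Fin t → ℤ),
    (∀ i, |(c i : ℝ)| ≤ |(n : ℝ)| ^ κ) ∧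
    (∀ i, ‖(c i : ℂ) * ∏ l, g l ^ e i l‖ ≤ ‖∏ l, g l ^ e₀ l‖ ^ (1 - δ)) ∧
    ‖(n : ℂ) - (∏ l, g l ^ e₀ l + ∑ i, (c i : ℂ) * ∏ l, g l ^ e i l)‖ ≤ |(n : ℝ)| ^ θ ∧
    ((∃ z : ℤ, ∏ l, g l ^ e₀ l + ∑ i, (c i : ℂ) * ∏ l, g l ^ e i l = (z : ℂ)) ∨
      ((∀ l, |(e₀ l : ℝ)| ≤ B * Real.log |(n : ℝ)|) ∧
        ∀ i l, |(e i l : ℝ)| ≤ B * Real.log |(n : ℝ)|))

/-- (FINJ) the final theorem (T1BJ, T1CJ, SVB, `Helper45.SUBK.field_exists` for the group generated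
by the `g l`) -/
def ST_FINJ : Prop := ∀ (k : ℕ) (g : Fin k → ℂ) (t : ℕ) (ε δ η B : ℝ),
  (∀ l, g l ≠ 0 ∧ IsAlgebraic ℚ (g l)) → 0 < ε → 0 < δ → δ < 1 → 0 < η →
  ∃ κ : ℝ, 0 < κ ∧ ∃ C : ℝ, ∀ x y : ℤ,
    (Near g t δ B κ (1 / 4 - η) x ∨ Near g t δ B κ (1 / 2 - η) y) → y ^ 2 ≠ x ^ 3 →
    Real.log |(x : ℝ)| ≤ (2 + ε) * Real.log |((y ^ 2 - x ^ 3 : ℤ) : ℝ)| + C

end Pool.Agent.Helper71.JN
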