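import Pool.Agent.Helper71.JN.AsmA
import Pool.Agent.Helper71.JN.AsmB
import Pool.Agent.Helper71.JN.SheetC
import Pool.Agent.Helper97.JN.ROOT
import Pool.Agent.Helper99.JN.MOD2
import Pool.Agent.Helper66.JN.BRG
import Pool.Agent.Helper47.JN.T1BJ
import Pool.Agent.Helper2.JN.T1CJ
import Pool.Agent.Helper27.JN.FINJ

/-! Assembly of project JN, the theorem on dominated sums. -/

set_option autoImplicit false

namespace Pool.Agent.Helper71.JN

open Pool.Agent.Helper70.SUB Pool.Agent.Helper70.SUBL Pool.Agent.Helper77.SUBK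
  Pool.Agent.Helper70.SUBW

theorem j_root : ST_ROOT := Pool.Agent.Helper97.JN.ROOT w_slw w_spw
theorem j_mod2 : ST_MOD2 := Pool.Agent.Helper99.JN.MOD2 w_slw w_dom
theorem j_brg : ST_BRG :=
  Pool.Agent.Helper66.JN.BRG j_mong j_ssfx j_galx j_rdx j_omg j_osr j_heart w_main w_slw
theorem j_t1b : ST_T1BJ :=
  Pool.Agent.Helper47.JN.T1BJ EXTW w_pfe w_slw w_spw j_mod2 j_root j_brg
theorem j_t1c : ST_T1CJ :=
  Pool.Agent.Helper2.JN.T1CJ EXTW w_pfe w_slw w_spw j_mod2 j_root j_brg
/-- Hall's inequality for integers close to dominated sums of S-units -/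
theorem j_finj : ST_FINJ := Pool.Agent.Helper27.JN.FINJ j_t1b j_t1c k_svb

end Pool.Agent.Helper71.JN
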