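import Pool.Agent.Helper71.JN.AsmA
import Pool.Agent.Helper71.JN.AsmB
import Pool.Agent.Helper71.JN.SheetD
import Pool.Agent.Helper78.JN.SPNK
import Pool.Agent.Helper99.JN.APXK
import Pool.Agent.Helper27.JN.REL4K
import Pool.Agent.Helper27.JN.YKXK
import Pool.Agent.Helper27.JN.TRSK
import Pool.Agent.Helper2.JN.IZK
import Pool.Agent.Helper9.JN.N2AK
import Pool.Agent.Helper66.JN.N2BK
import Pool.Agent.Helper66.JN.HEARTK
import Pool.Agent.Helper66.JN.BRGK
import Pool.Agent.Helper97.JN.SPH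
import Pool.Agent.Helper70.JN.T1U
import Pool.Agent.Helper77.JN.FINU

/-! Assembly of project JN, the uniform theorem. -/

set_option autoImplicit false

namespace Pool.Agent.Helper71.JN

open Pool.Agent.Helper70.SUB Pool.Agent.Helper70.SUBL Pool.Agent.Helper77.SUBK
  Pool.Agent.Helper70.SUBW

theorem u_spn : ST_SPNK := _root_.Helper78.JN.SPNK j_prim j_rk
theorem u_apx : ST_APXK := Pool.Agent.Helper99.JN.APXK
theorem u_rel4 : ST_REL4K := Pool.Agent.Helper27.JN.REL4K u_apx j_gsk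
theorem u_ykx : ST_YKXK := Pool.Agent.Helper27.JN.YKXK u_rel4 u_apx j_gsk
theorem u_trs : ST_TRSK := Pool.Agent.Helper27.JN.TRSK u_rel4 u_apx j_gsk
theorem u_iz : ST_IZK := Pool.Agent.Helper2.JN.IZK u_spn j_prim j_ric j_rk u_apx
theorem u_n2a : ST_N2AK := Pool.Agent.Helper9.JN.N2AK u_iz j_prim j_ric j_rk
theorem u_n2b : ST_N2BK := Pool.Agent.Helper66.JN.N2BK j_rk u_apx
theorem u_heart : ST_HEARTK :=
  Pool.Agent.Helper66.JN.HEARTK u_trs u_ykx u_iz j_n3 u_n2a u_n2b j_prim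
theorem u_brg : ST_BRGK :=
  Pool.Agent.Helper66.JN.BRGK j_mong j_ssfx j_galx j_rdx j_omg j_osr u_heart w_main w_slw
theorem u_sph : ST_SPH := Pool.Agent.Helper97.JN.SPH w_subtu w_slw k_prk
theorem u_t1u : ST_T1U := Pool.Agent.Helper70.JN.T1U EXTW w_pfe w_slw w_spw u_sph u_brg
/-- Hall's inequality near sparse points of the cuspidal curve -/
theorem u_fin : ST_FINU := Pool.Agent.Helper77.JN.FINU u_t1u k_svb

end Pool.Agent.Helper71.JN
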