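import Mathlib

/-!
Project JN (MP_9d7cd1_nt, joint theorem), abstract part: definitions.
`Ω` is a field with finitely many non-archimedean absolute values `nu i` which are trivial on the
field `F` of slow elements, `O` is a subring of `Ω`, the `w k` are units of `O`, and `O` satisfies
the abstract Subspace theorem `ss`.
-/

set_option autoImplicit false

namespace Pool.Agent.Helper71.JN

/-- monomials with integral exponents -/
noncomputable def mon {Ω : Type} [Field Ω] {r : ℕ} (w : Fin r → Ω) (m : Fin r → ℤ) : Ω :=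
  ∏ k, w k ^ m k

/-- a field with absolute values and the abstract Subspace theorem -/
structure SSF (F Ω : Type) [Field F] [Field Ω] [Algebra F Ω] (I : Type) [Fintype I] (r : ℕ) where
  /-- the absolute values -/
  nu : I → AbsoluteValue Ω ℝ
  /-- the ring of S-integral elements -/
  O : Subring Ω
  /-- independent S-units -/
  w : Fin r → Ω
  ult : ∀ (i : I) (x y : Ω), nu i (x + y) ≤ max (nu i x) (nu i y)
  FO : ∀ c : F, algebraMap F Ω c ∈ O
  F1 : ∀ (i : I) (c : F), c ≠ 0 → nu i (algebraMap F Ω c) = 1
  w0 : ∀ k, w k ≠ 0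
  wO : ∀ k, w k ∈ O
  wO' : ∀ k, (w k)⁻¹ ∈ O
  /-- the Subspace theorem -/
  ss : ∀ (n : ℕ) (e : Fin n → Ω) (f : I → Fin n → Ω), (∀ k, e k ∈ O) → LinearIndependent F e →
    (∀ i, Submodule.span F (Set.range (f i)) = Submodule.span F (Set.range e)) →
    1 ≤ ∏ i, ∏ k, nu i (f i k)
  /-- the terms of a Laurent polynomial in the `w k` are not larger than the sum -/
  lau : ∀ (i : I) (s : Finset (Fin r → ℤ)) (c : (Fin r → ℤ) → F) (m : Fin r → ℤ), m ∈ s →
    c m ≠ 0 → nu i (mon w m) ≤ nu i (∑ m ∈ s, algebraMap F Ω (c m) * mon w m)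
  u0 : ∀ m : Fin r → ℤ, (∀ i, nu i (mon w m) = 1) → m = 0

namespace SSF

variable {F Ω : Type} [Field F] [Field Ω] [Algebra F Ω] {I : Type} [Fintype I] {r : ℕ}

/-- the field generated by the units `w k` over the slow elements -/
def K (D : SSF F Ω I r) : IntermediateField F Ω := IntermediateField.adjoin F (Set.range D.w)

/-- the ring of Laurent polynomials in the units `w k` -/
def R (D : SSF F Ω I r) : Subalgebra F Ω :=
  Algebra.adjoin F (Set.range D.w ∪ Set.range fun k => (D.w k)⁻¹)

/-- the value of a polynomial at the units `w k` -/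
noncomputable def ev (D : SSF F Ω I r) : MvPolynomial (Fin r) F →ₐ[F] Ω := MvPolynomial.aeval D.w

end SSF

end Pool.Agent.Helper71.JN
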