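import Pool.Agent.Helper71.JN.SheetD

/-!
Project JN, fifth sheet: theorem W+. `x` is within `|x| ^ (1/2 - η)` of the square of a quotient
`r` of sparse numbers and `d = y ^ 2 - x ^ 3` is sparse; then Hall's inequality holds. With
`d = d * 1` (slow) this gives `|d| ≥ c |x| ^ κ` for all integral points near `(r ^ 2, r ^ 3)`.
-/

set_option autoImplicit false

namespace Pool.Agent.Helper71.JN

open Polynomial Filter Finset Pool.Agent.Helper70.SUB Pool.Agent.Helper77.SUBK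
  Pool.Agent.Helper70.SUBL Pool.Agent.Helper70.SUBW

/-! ## E1. Abstract part -/

/-- the hypotheses: `d = y ^ 2 - x ^ 3 ∈ K` and `β < 1` -/
structure HW {F Ω : Type} [Field F] [Field Ω] [Algebra F Ω] {I : Type} [Fintype I] {r : ℕ}
    (D : SSF F Ω I r) (J : Finset I) (α β : ℝ) (x y : Ω) (R : I → Ω) : Prop where
  hα0 : 0 ≤ α
  hα : α < 1
  hβ0 : 0 ≤ β
  hβ : β < 1
  hJ : J.Nonempty
  xO : x ∈ D.O
  yO : y ∈ D.O
  dK : y ^ 2 - x ^ 3 ∈ D.K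
  d0 : y ^ 2 - x ^ 3 ≠ 0
  fx : ∀ i, i ∉ J → D.nu i x ≤ 1
  fy : ∀ i, i ∉ J → D.nu i y ≤ 1
  sx : ∀ i ∈ J, D.nu i x = Real.exp 2
  sy : ∀ i ∈ J, D.nu i y = Real.exp 3
  sd : ∀ i ∈ J, D.nu i (y ^ 2 - x ^ 3) ≤ Real.exp α
  RR : ∀ i ∈ J, R i ∈ D.K
  s1 : ∀ i ∈ J, D.nu i (R i) = Real.exp 1
  s2 : ∀ i ∈ J, D.nu i (x - R i ^ 2) ≤ Real.exp β
  s4 : ∀ i ∈ J, D.nu i (y - R i ^ 3) < Real.exp 3

/-- the `k`-th monomial `x ^ ea k * y ^ eb k`, of weight `wt k = 0, 2, 3, 4, ..` -/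
def ea (k : ℕ) : ℕ := if k = 0 then 0 else if (k + 1) % 2 = 0 then (k + 1) / 2 else (k - 2) / 2
def eb (k : ℕ) : ℕ := if k = 0 then 0 else (k + 1) % 2
def wt (k : ℕ) : ℕ := if k = 0 then 0 else k + 1

/-- the polynomial `(1 + s) ^ ea k * p (U) ^ eb k`, `U = (1 + s) ^ 3 - 1 + e`, in the outer variable
`s` and the inner variable `e`; `p` approximates `(1 + X) ^ (1/2)` -/
noncomputable def Ek (p : ℚ[X]) (k : ℕ) : ℚ[X][X] :=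
  (1 + X) ^ ea k * (aeval ((1 + X) ^ 3 - 1 + C X : ℚ[X][X]) p) ^ eb k

/-- (PADE) combinations of `1, x, y, x ^ 2, ..` vanishing to order `k` at `s = 0`, with invertible
leading coefficient. Cramer: `a l` = minors of the matrix of the coefficients of `s ^ j`, `j < k`,
of `Ek p l`, `l ≤ k`. The leading minor is nonzero at `e = 0`: otherwise a nontrivial combination
of `Ek p l`, `l < k`, at `e = 0` vanishes to order `k`; with `1 + s = f ^ 2` this is a polynomial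
`∑ c_l f ^ wt l` of degree `≤ k` divisible by `(f - 1) ^ k`, so it is `c (f - 1) ^ k`, which has a
linear term (no weight is `1`) -/
def ST_PADE : Prop := ∀ (m K : ℕ) (p u : ℚ[X]), 1 ≤ m → m ≤ K → p.coeff 0 = 1 →
  p ^ 2 - (1 + X) = X ^ K * u → ∀ k < m, ∃ (a : ℕ → ℚ[X]) (H : ℚ[X][X]), (a k).eval 0 ≠ 0 ∧
    ∑ l ∈ Finset.range (k + 1), C (a l) * Ek p l = X ^ k * H

/-- (ALGW) `x` is algebraic over `K` (GSK, PADE, BIN with `n = 2`). For `i ∈ J`: `R = R i`,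
`s = (x - R ^ 2) / R ^ 2` of size `≤ exp (β - 2)`, `e = d / R ^ 6 ∈ K` of size `≤ exp (α - 6)`,
`|y / R ^ 3 - p (U)| ≤ exp (-K)` (`U = (1 + s) ^ 3 - 1 + e`; the sign by `s4`), so
`x ^ ea l * y ^ eb l = R ^ wt l * (Ek p l (s, e) + tiny)`; GSK with `e k = x ^ ea k * y ^ eb k`
(`k < m`), `f k = ∑_l a_l(e) R ^ (-wt l) e l`, of size `≤ exp (k (β - 2))`,
`g k = a_k(e) R ^ (-wt k)` of size `exp (-wt k)`; the exponents have the sum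
`(m - 1) / 2 * ((β - 1) m + 2) < 0` for large `m`. So the `e k` are dependent over `K`:
`A(x) + B(x) y = 0`, `A ^ 2 - B ^ 2 (X ^ 3 + d) ≠ 0` vanishes at `x` -/
def ST_ALGW : Prop := ∀ (F Ω : Type) [Field F] [Field Ω] [CharZero Ω] [Algebra F Ω] (I : Type)
  [Fintype I] (r : ℕ) (D : SSF F Ω I r) (J : Finset I) (α β : ℝ) (x y : Ω) (R : I → Ω),
  HW D J α β x y R → IsIntegral D.K x

/-- (ABSV) an absolute value (multiplicative) on the algebraic closure of `K` which extends `nu i`;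
the bound for conjugates follows from PRIM as in SPNK. (E.g.: completion `K'` of `K`, spectral norm
on the algebraic closure of `K'`, which is multiplicative for complete `K'`, and an embedding of
`AlgebraicClosure K`; if `nu i` is trivial on `K` take the trivial absolute value) -/
def ST_ABSV : Prop := ∀ (F Ω : Type) [Field F] [Field Ω] [Algebra F Ω] (I : Type) [Fintype I]
  (r : ℕ) (D : SSF F Ω I r) (i : I), ∃ v : AbsoluteValue (AlgebraicClosure D.K) ℝ,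
  (∀ a b, v (a + b) ≤ max (v a) (v b)) ∧
  (∀ k : D.K, v (algebraMap D.K (AlgebraicClosure D.K) k) = D.nu i (k : Ω)) ∧
  (∀ z : Ω, (∃ q ∈ D.R, q ≠ 0 ∧ q * z ∈ D.O) → IsIntegral D.K z →
    ∀ a, aeval a (minpoly D.K z) = 0 → v a ≤ D.nu i z)

/-- (TRW) the sum of the conjugates of the point `(x, y)` on `Y ^ 2 = X ^ 3 + d`. All the
embeddings `τ` of `L = K(x, y)` into `E`, `P_τ = (τ x, τ y)`; by induction on the number `k` of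
terms a partial sum is a point `(X, Y)` with `v (k ^ 2 X - R ^ 2) < exp 2`,
`v (k ^ 3 Y - R ^ 3) < exp 3`: the slope `l` satisfies `l (Y + y') = X ^ 2 + X x' + x' ^ 2` (also
for a doubling), so `k (k + 1) l` is close to `(k ^ 2 + k + 1) R`. The total sum is invariant under
the Galois group of `E / K` (Mathlib: `WeierstrassCurve.Affine.Point`, `Point.map`) -/
def ST_TRW : Prop := ∀ (K Ω E : Type) [Field K] [Field Ω] [Field E] [CharZero K] [Algebra K Ω]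
  [Algebra K E] [IsAlgClosed E] [Algebra.IsAlgebraic K E] (x y : Ω) (d : K) (ι : Type)
  [Nonempty ι] (v : ι → AbsoluteValue E ℝ) (R : ι → K), IsIntegral K x → d ≠ 0 →
  y ^ 2 = x ^ 3 + algebraMap K Ω d →
  (∀ i a b, v i (a + b) ≤ max (v i a) (v i b)) → (∀ (i : ι) (q : ℚ), q ≠ 0 → v i (q : E) = 1) →
  (∀ i, v i (algebraMap K E (R i)) = Real.exp 1) →
  (∀ i (a : E), aeval a (minpoly K (x - algebraMap K Ω (R i) ^ 2)) = 0 → v i a < Real.exp 2) →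
  (∀ i (a : E), aeval a (minpoly K (y - algebraMap K Ω (R i) ^ 3)) = 0 → v i a < Real.exp 3) →
  ∃ X Y : K, Y ^ 2 = X ^ 3 + d ∧
    ∀ i, v i (algebraMap K E X) = Real.exp 2 ∧ v i (algebraMap K E Y) = Real.exp 3

/-- (ZW) points of `Y ^ 2 = X ^ 3 + d` over `K` (RK). For a derivation `δ = w_k ∂/∂w_k` of `K`
(`nu i (δ z) ≤ nu i z` for all `i` and `z ∈ K`): `Z = 2 X δY - 3 Y δX` satisfies
`Y Z = X δd - 3 d δX`. It lies in `R`: `R` is a UFD, `X = A / C ^ 2`, `Y = B / C ^ 3` in lowest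
terms, `Z = (2 A δB - 3 B δA) / C ^ 5` and
`B (2 A δB - 3 B δA) = C ^ 5 (A C δd - 3 d (C δA - 2 A δC))`. Sizes: `≤ exp (α - 1) < 1` for
`i ∈ J`; for `i ∉ J` it is `≤ 1` (if `nu i X > 1` then `nu i Y ^ 2 = nu i X ^ 3`). Product
formula: `Z = 0` for all `δ`; so `Y ^ 2 / X ^ 3` is a constant `c ∈ F`, `d = (c - 1) X ^ 3`, and the
size of `d` is not `exp 6`, so `c = 1`, `d = 0` -/
def ST_ZW : Prop := ∀ (F Ω : Type) [Field F] [Field Ω] [CharZero Ω] [Algebra F Ω] (I : Type)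
  [Fintype I] (r : ℕ) (D : SSF F Ω I r) (J : Finset I) (α : ℝ) (X Y d : Ω), J.Nonempty →
  α < 1 → X ∈ D.K → Y ∈ D.K → d ∈ D.R → d ≠ 0 → Y ^ 2 = X ^ 3 + d →
  (∀ i ∈ J, D.nu i X = Real.exp 2 ∧ D.nu i Y = Real.exp 3 ∧ D.nu i d ≤ Real.exp α) →
  (∀ i, i ∉ J → D.nu i d ≤ 1) → False

/-- (HEARTW) (ALGW, ABSV, TRW, ZW, PRIM, RK) -/
def ST_HEARTW : Prop := ∀ (F Ω : Type) [Field F] [Field Ω] [CharZero Ω] [Algebra F Ω] (I : Type)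
  [Fintype I] (r : ℕ) (D : SSF F Ω I r) (J : Finset I) (α β : ℝ) (x y : Ω) (R : I → Ω),
  ¬ HW D J α β x y R

/-! ## E2. Application -/

/-- (BRGW) from the sequences to the abstract part (as BRGK with HEARTW; no MAINW): the units are
those of `p`, `q` and `y ^ 2 - x ^ 3` -/
def ST_BRGW : Prop := ∀ (M : Type) [Field M] [NumberField M] [IsGalois ℚ M] (S : Finset ℕ)
  (P : PF S M) (φ : Ultrafilter ℕ) (x y : ℕ → ℤ) (X : ℕ → ℝ) (p q : ℕ → M) (β ε ρ : ℝ),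
  (∀ p ∈ S, p.Prime) → 0 < ε → 0 ≤ β → β < 1 → 0 < ρ → Tendsto X (φ : Filter ℕ) atTop →
  (∀ᶠ j in (φ : Filter ℕ), X j ^ 2 = |(x j : ℝ)|) → SpM P φ X p → SpM P φ X q →
  SpM P φ X (fun j => ((y j ^ 2 - x j ^ 3 : ℤ) : M)) →
  (∀ᶠ j in (φ : Filter ℕ), q j ≠ 0 ∧ y j ^ 2 ≠ x j ^ 3 ∧
    |((y j ^ 2 - x j ^ 3 : ℤ) : ℝ)| ≤ |(x j : ℝ)| ^ (1 / (2 + ε)) ∧
    P.nv none ((x j : M) - (p j / q j) ^ 2) ≤ X j ^ β ∧
    P.nv none ((y j : M) - (p j / q j) ^ 3) ≤ X j ^ (3 - ρ)) → False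

/-- (T1V) theorem W+ over `M` (EXTW, PFE, SLW, SPW, SPH, BRGW), as T1U: scale `X = |x| ^ (1/2)`;
first alternative `β = max 0 (1 - 2 η)`; second alternative
`x ^ 3 - R ^ 6 = (x - R ^ 2) (x - ζ R ^ 2) (x - ζ ^ 2 R ^ 2)` of size `≤ 4 X ^ (5 - 2 η)`,
`β = max 0 (1 - η)`; `y ^ 2 - x ^ 3` is moderate by SPH -/
def ST_T1V : Prop := ∀ (M : Type) [Field M] [NumberField M] [IsGalois ℚ M] (S : Finset ℕ)
  (ψ : M →+* ℂ) (ζ : M) (t : ℕ) (ε η B : ℝ), (∀ p ∈ S, p.Prime) → ζ ^ 2 + ζ + 1 = 0 → 0 < ε →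
  0 < η →
  ∃ κ : ℝ, 0 < κ ∧ ∃ C : ℝ, ∀ (c d e : Fin t → ℤ) (a b f : Fin t → M) (x y : ℤ),
    (∀ i, SV S (a i)) → (∀ i, SV S (b i)) → (∀ i, SV S (f i)) →
    (∀ i, |(c i : ℝ)| ≤ |(x : ℝ)| ^ κ) → (∀ i, |(d i : ℝ)| ≤ |(x : ℝ)| ^ κ) →
    (∀ i, |(e i : ℝ)| ≤ |(x : ℝ)| ^ κ) →
    HBZ ψ (|(x : ℝ)| ^ B) (∑ i, (c i : M) * a i) → HBZ ψ (|(x : ℝ)| ^ B) (∑ i, (d i : M) * b i) →
    ∑ i, (d i : M) * b i ≠ 0 → ∑ i, (e i : M) * f i = ((y ^ 2 - x ^ 3 : ℤ) : M) →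
    (‖(x : ℂ) - ψ ((∑ i, (c i : M) * a i) / ∑ i, (d i : M) * b i) ^ 2‖
        ≤ |(x : ℝ)| ^ (1 / 2 - η) ∨
      ‖(y : ℂ) - ψ ((∑ i, (c i : M) * a i) / ∑ i, (d i : M) * b i) ^ 3‖
        ≤ |(x : ℝ)| ^ (1 - η)) →
    y ^ 2 ≠ x ^ 3 →
    Real.log |(x : ℝ)| ≤ (2 + ε) * Real.log |((y ^ 2 - x ^ 3 : ℤ) : ℝ)| + C

/-- (FINV) theorem W+ (T1V, SVB, `Helper45.SUBK.field_exists`), as FINU -/
def ST_FINV : Prop := ∀ (Γ : Subgroup ℂˣ) (t : ℕ) (ε η B : ℝ), Γ.FG →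
  (∀ γ ∈ Γ, IsAlgebraic ℚ ((γ : ℂˣ) : ℂ)) → 0 < ε → 0 < η →
  ∃ κ : ℝ, 0 < κ ∧ ∃ C : ℝ, ∀ (x y : ℤ) (p q : ℂ),
    Sparse Γ t (|(x : ℝ)| ^ κ) (|(x : ℝ)| ^ B) p → Sparse Γ t (|(x : ℝ)| ^ κ) (|(x : ℝ)| ^ B) q →
    q ≠ 0 → WSum Γ t (|(x : ℝ)| ^ κ) ((y ^ 2 - x ^ 3 : ℤ) : ℂ) →
    (‖(x : ℂ) - (p / q) ^ 2‖ ≤ |(x : ℝ)| ^ (1 / 2 - η) ∨
      ‖(y : ℂ) - (p / q) ^ 3‖ ≤ |(x : ℝ)| ^ (1 - η)) →
    y ^ 2 ≠ x ^ 3 →
    Real.log |(x : ℝ)| ≤ (2 + ε) * Real.log |((y ^ 2 - x ^ 3 : ℤ) : ℝ)| + C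

/-- (WEAK) the weak form of Hall's conjecture near sparse points (FINV with `t + 1` terms, the
term `d * 1`) -/
def ST_WEAK : Prop := ∀ (Γ : Subgroup ℂˣ) (t : ℕ) (η B : ℝ), Γ.FG →
  (∀ γ ∈ Γ, IsAlgebraic ℚ ((γ : ℂˣ) : ℂ)) → 0 < η →
  ∃ κ : ℝ, 0 < κ ∧ ∃ C : ℝ, ∀ (x y : ℤ) (p q : ℂ),
    Sparse Γ t (|(x : ℝ)| ^ κ) (|(x : ℝ)| ^ B) p → Sparse Γ t (|(x : ℝ)| ^ κ) (|(x : ℝ)| ^ B) q →
    q ≠ 0 →
    (‖(x : ℂ) - (p / q) ^ 2‖ ≤ |(x : ℝ)| ^ (1 / 2 - η) ∨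
      ‖(y : ℂ) - (p / q) ^ 3‖ ≤ |(x : ℝ)| ^ (1 - η)) →
    y ^ 2 ≠ x ^ 3 →
    κ * Real.log |(x : ℝ)| ≤ Real.log |((y ^ 2 - x ^ 3 : ℤ) : ℝ)| + C

end Pool.Agent.Helper71.JN
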