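import Pool.Agent.Helper71.JN.SheetE

/-!
Project JN, sheet F: theorem W+ with `|d|` replaced by `NS S d = |d| ∏ |d|_p ^ (5/6)`, the product
over `p ∈ S` (`d = y ^ 2 - x ^ 3` sparse, of any size). `|d| ^ (1/6) ≤ NS S d ≤ |d|`.
-/

set_option autoImplicit false

namespace Pool.Agent.Helper71.JN

open Polynomial Filter Finset Pool.Agent.Helper70.SUB Pool.Agent.Helper77.SUBK
  Pool.Agent.Helper70.SUBL Pool.Agent.Helper70.SUBW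

/-! ## F1. Abstract part -/

open scoped Classical in
/-- as `HW`, with the product condition `pd` instead of `ν d < exp 1` -/
structure HS {F Ω : Type} [Field F] [Field Ω] [Algebra F Ω] {I : Type} [Fintype I] {r : ℕ}
    (D : SSF F Ω I r) (J : Finset I) (β : ℝ) (x y : Ω) (R : I → Ω) : Prop where
  hβ : β < 1
  hJ : J.Nonempty
  xO : x ∈ D.O
  yO : y ∈ D.O
  dK : y ^ 2 - x ^ 3 ∈ D.K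
  d0 : y ^ 2 - x ^ 3 ≠ 0
  fx : ∀ i, i ∉ J → D.nu i x ≤ 1
  fy : ∀ i, i ∉ J → D.nu i y ≤ 1
  sx : ∀ i ∈ J, D.nu i x = Real.exp 2
  sy : ∀ i ∈ J, D.nu i y = Real.exp 3
  sd : ∀ i ∈ J, D.nu i (y ^ 2 - x ^ 3) < Real.exp 6
  pd : (∏ i ∈ J, D.nu i (y ^ 2 - x ^ 3) * Real.exp (-1)) *
    ∏ i ∈ univ.filter (fun i => i ∉ J), D.nu i (y ^ 2 - x ^ 3) ^ (5 / 6 : ℝ) < 1
  RR : ∀ i ∈ J, R i ∈ D.K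
  s1 : ∀ i ∈ J, D.nu i (R i) = Real.exp 1
  s2 : ∀ i ∈ J, D.nu i (x - R i ^ 2) ≤ Real.exp β
  s4 : ∀ i ∈ J, D.nu i (y - R i ^ 3) < Real.exp 3

open scoped Classical in
/-- (ZS) as ZW / `Helper77.JN.INTZ`. For a derivation `δ = w_k ∂/∂w_k` the element
`Z = 2 X δY - 3 Y δX` lies in `R` and `Y Z = X δd - 3 d δX`. Sizes: `ν Z ≤ ν d * exp (-1)` for
`i ∈ J` and `ν Z ≤ ν d ^ (5/6)` for `i ∉ J`: (1) `ν X > 1`: `ν Y ^ 2 = ν X ^ 3`, so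
`ν Z ≤ ν X ν d / ν Y ≤ ν d`; (2) `ν X ≤ 1`, `ν Y ^ 2 ≤ ν d`: then `ν X ^ 3 ≤ ν d` and
`ν Z ≤ ν X ν Y ≤ ν d ^ (5/6)`; (3) `ν X ≤ 1`, `ν Y ^ 2 > ν d`: then `ν X ^ 3 = ν Y ^ 2`,
`ν Z ≤ ν X ν d / ν Y = ν d ν Y ^ (-1/3) ≤ ν d ^ (5/6)`. Product formula: `Z = 0` for all `δ`; so
`d = (c - 1) X ^ 3` with a constant `c ≠ 1`, of size `exp 6` in `J` -/
def ST_ZS : Prop := ∀ (F Ω : Type) [Field F] [Field Ω] [CharZero Ω] [Algebra F Ω] (I : Type)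
  [Fintype I] (r : ℕ) (D : SSF F Ω I r) (J : Finset I) (X Y d : Ω), J.Nonempty →
  X ∈ D.K → Y ∈ D.K → d ∈ D.R → d ≠ 0 → Y ^ 2 = X ^ 3 + d →
  (∀ i ∈ J, D.nu i X = Real.exp 2 ∧ D.nu i Y = Real.exp 3 ∧ D.nu i d < Real.exp 6) →
  (∀ i, i ∉ J → D.nu i d ≤ 1) →
  (∏ i ∈ J, D.nu i d * Real.exp (-1)) *
    ∏ i ∈ univ.filter (fun i => i ∉ J), D.nu i d ^ (5 / 6 : ℝ) < 1 → False

/-- (HEARTS) as HEARTW: `Helper70.JN.algw` (it only needs `ν d < exp 6`), `Helper47.JN.gdes`, ZS,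
PRIM -/
def ST_HEARTS : Prop := ∀ (F Ω : Type) [Field F] [Field Ω] [CharZero Ω] [Algebra F Ω] (I : Type)
  [Fintype I] (r : ℕ) (D : SSF F Ω I r) (J : Finset I) (β : ℝ) (x y : Ω) (R : I → Ω),
  ¬ HS D J β x y R

/-! ## F2. Application -/

/-- `|d| ∏_{p ∈ S} |d|_p ^ (5/6)` -/
noncomputable def NS (S : Finset ℕ) (d : ℤ) : ℝ :=
  |(d : ℝ)| * ∏ p ∈ S, ((padicNorm p (d : ℚ) : ℚ) : ℝ) ^ (5 / 6 : ℝ)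

/-- (BRGS) as BRGW, with HEARTS. `|d| ≤ NS S d ^ 6 ≤ X ^ (12 / (2 + ε))` gives `sd`; `pd` is the
`|G|`-th power of `ν d * exp (-1) * ∏_p ν_p d ^ (5/6) ≤ exp (2 / (2 + ε) - 1)` -/
def ST_BRGS : Prop := ∀ (M : Type) [Field M] [NumberField M] [IsGalois ℚ M] (S : Finset ℕ)
  (P : PF S M) (φ : Ultrafilter ℕ) (x y : ℕ → ℤ) (X : ℕ → ℝ) (p q : ℕ → M) (β ε ρ : ℝ),
  (∀ p ∈ S, p.Prime) → 0 < ε → β < 1 → 0 < ρ → Tendsto X (φ : Filter ℕ) atTop →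
  (∀ᶠ j in (φ : Filter ℕ), X j ^ 2 = |(x j : ℝ)|) → SpM P φ X p → SpM P φ X q →
  SpM P φ X (fun j => ((y j ^ 2 - x j ^ 3 : ℤ) : M)) →
  (∀ᶠ j in (φ : Filter ℕ), q j ≠ 0 ∧ y j ^ 2 ≠ x j ^ 3 ∧
    NS S (y j ^ 2 - x j ^ 3) ≤ |(x j : ℝ)| ^ (1 / (2 + ε)) ∧
    P.nv none ((x j : M) - (p j / q j) ^ 2) ≤ X j ^ β ∧
    P.nv none ((y j : M) - (p j / q j) ^ 3) ≤ X j ^ (3 - ρ)) → False

/-- (T1S) as T1V (EXTW, PFE, SLW, SPW, SPH, BRGS). `NS S d ≥ |d| ^ (1/6)`, so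
`|d| ≤ X ^ (12 / (2 + ε))`. First alternative: the sign of `R` from `y ^ 2 = x ^ 3 + d`. Second
alternative: `x ^ 3 - R ^ 6 = (y - R ^ 3) (y + R ^ 3) - d` has size `≤ 4 X ^ (5 - 2 min η (1/2))` -/
def ST_T1S : Prop := ∀ (M : Type) [Field M] [NumberField M] [IsGalois ℚ M] (S : Finset ℕ)
  (ψ : M →+* ℂ) (ζ : M) (t : ℕ) (ε η B : ℝ), (∀ p ∈ S, p.Prime) → ζ ^ 2 + ζ + 1 = 0 → 0 < ε →
  0 < η →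
  ∃ κ : ℝ, 0 < κ ∧ ∃ C : ℝ, ∀ (c d e : Fin t → ℤ) (a b f : Fin t → M) (x y : ℤ),
    (∀ i, SV S (a i)) → (∀ i, SV S (b i)) → (∀ i, SV S (f i)) →
    (∀ i, |(c i : ℝ)| ≤ |(x : ℝ)| ^ κ) → (∀ i, |(d i : ℝ)| ≤ |(x : ℝ)| ^ κ) →
    (∀ i, |(e i : ℝ)| ≤ |(x : ℝ)| ^ κ) →
    HBZ ψ (|(x : ℝ)| ^ B) (∑ i, (c i : M) * a i) → HBZ ψ (|(x : ℝ)| ^ B) (∑ i, (d i : M) * b i) →
    ∑ i, (d i : M) * b i ≠ 0 → ∑ i, (e i : M) * f i = ((y ^ 2 - x ^ 3 : ℤ) : M) →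
    (‖(x : ℂ) - ψ ((∑ i, (c i : M) * a i) / ∑ i, (d i : M) * b i) ^ 2‖
        ≤ |(x : ℝ)| ^ (1 / 2 - η) ∨
      ‖(y : ℂ) - ψ ((∑ i, (c i : M) * a i) / ∑ i, (d i : M) * b i) ^ 3‖
        ≤ |(x : ℝ)| ^ (1 - η) ∧ |((y ^ 2 - x ^ 3 : ℤ) : ℝ)| ≤ |(x : ℝ)| ^ 2) →
    y ^ 2 ≠ x ^ 3 →
    Real.log |(x : ℝ)| ≤ (2 + ε) * Real.log (NS S (y ^ 2 - x ^ 3)) + C

/-- (FINS) the final theorem (T1S for a set of primes which contains `S`, SVB,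
`Helper45.SUBK.field_exists`), as FINV; `NS` decreases when `S` grows -/
def ST_FINS : Prop := ∀ (S : Finset ℕ) (Γ : Subgroup ℂˣ) (t : ℕ) (ε η B : ℝ),
  (∀ p ∈ S, p.Prime) → Γ.FG →
  (∀ γ ∈ Γ, IsAlgebraic ℚ ((γ : ℂˣ) : ℂ)) → 0 < ε → 0 < η →
  ∃ κ : ℝ, 0 < κ ∧ ∃ C : ℝ, ∀ (x y : ℤ) (p q : ℂ),
    Sparse Γ t (|(x : ℝ)| ^ κ) (|(x : ℝ)| ^ B) p → Sparse Γ t (|(x : ℝ)| ^ κ) (|(x : ℝ)| ^ B) q →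
    q ≠ 0 → WSum Γ t (|(x : ℝ)| ^ κ) ((y ^ 2 - x ^ 3 : ℤ) : ℂ) →
    (‖(x : ℂ) - (p / q) ^ 2‖ ≤ |(x : ℝ)| ^ (1 / 2 - η) ∨
      ‖(y : ℂ) - (p / q) ^ 3‖ ≤ |(x : ℝ)| ^ (1 - η) ∧
        |((y ^ 2 - x ^ 3 : ℤ) : ℝ)| ≤ |(x : ℝ)| ^ 2) →
    y ^ 2 ≠ x ^ 3 →
    Real.log |(x : ℝ)| ≤ (2 + ε) * Real.log (NS S (y ^ 2 - x ^ 3)) + C

end Pool.Agent.Helper71.JN
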